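import Pool.Agent.Lib.LPH.Defs

/-!
Project LPH, row H6: the explicit admissible functions of level `k`.
-/

set_option autoImplicit false

namespace Pool.Agent.Lib.LPH

open MeasureTheory Filter Topology
open Pool.Agent.Lib.MP_ef2672_gt_Tauber Pool.Agent.Lib.MP_ef2672_gt_Over Pool.Agent.Lib.EF_h73

/-! ### Positive definite functions -/

section PD

variable {V : Type*} [AddCommGroup V]

lemma PD.sum_nonneg' {F : V → ℝ} (hF : PD F) {ι : Type*} [Fintype ι] (x : ι → V) (c : ι → ℝ) :
    0 ≤ ∑ i, ∑ j, c i * c j * F (x i - x j) := by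
  have h := hF.2 (Fintype.card ι) (fun i => x ((Fintype.equivFin ι).symm i))
    (fun i => c ((Fintype.equivFin ι).symm i))
  rw [Equiv.sum_comp (Fintype.equivFin ι).symm fun i => ∑ j, c i *
    c ((Fintype.equivFin ι).symm j) * F (x i - x ((Fintype.equivFin ι).symm j))] at h
  refine h.trans (le_of_eq (Finset.sum_congr rfl fun i _ => ?_))
  exact Equiv.sum_comp (Fintype.equivFin ι).symm fun j => c i * c j * F (x i - x j)

lemma PD.add {F G : V → ℝ} (hF : PD F) (hG : PD G) : PD (fun x => F x + G x) := by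
  refine ⟨fun x => show F (-x) + G (-x) = F x + G x by rw [hF.1, hG.1], fun m x c => ?_⟩
  have h1 := hF.2 m x c
  have h2 := hG.2 m x c
  have h3 : ∑ i, ∑ j, c i * c j * (F (x i - x j) + G (x i - x j)) =
      ∑ i, ∑ j, c i * c j * F (x i - x j) + ∑ i, ∑ j, c i * c j * G (x i - x j) := by
    simp only [mul_add, Finset.sum_add_distrib]
  rw [h3]
  exact add_nonneg h1 h2

lemma PD.const_mul {F : V → ℝ} (hF : PD F) {a : ℝ} (ha : 0 ≤ a) : PD (fun x => a * F x) := by
  refine ⟨fun x => show a * F (-x) = a * F x by rw [hF.1], fun m x c => ?_⟩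
  have h1 := hF.2 m x c
  have h3 : ∑ i, ∑ j, c i * c j * (a * F (x i - x j)) =
      a * ∑ i, ∑ j, c i * c j * F (x i - x j) := by
    rw [Finset.mul_sum]
    refine Finset.sum_congr rfl fun i _ => ?_
    rw [Finset.mul_sum]
    refine Finset.sum_congr rfl fun j _ => ?_
    ring
  rw [h3]
  exact mul_nonneg ha h1

lemma PD.zero : PD (fun _ : V => (0 : ℝ)) := by
  refine ⟨fun _ => rfl, fun m x c => ?_⟩
  simp

lemma PD.sum {ι : Type*} (s : Finset ι) {F : ι → V → ℝ} (hF : ∀ i ∈ s, PD (F i)) :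
    PD (fun x => ∑ i ∈ s, F i x) := by
  classical
  induction s using Finset.induction_on with
  | empty => simpa using PD.zero
  | insert a s ha ih =>
    have h1 := (hF a (Finset.mem_insert_self a s)).add
      (ih fun i hi => hF i (Finset.mem_insert_of_mem hi))
    have h2 : (fun x => ∑ i ∈ insert a s, F i x) = fun x => F a x + ∑ i ∈ s, F i x := by
      funext x
      rw [Finset.sum_insert ha]
    rw [h2]
    exact h1

lemma PD.diff {F : V → ℝ} (hF : PD F) (Y : V) :
    PD (fun x => 2 * F x - F (x - Y) - F (x + Y)) := by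
  refine ⟨fun x => ?_, fun m x c => ?_⟩
  · have h1 : F (-x - Y) = F (x + Y) := by
      rw [← hF.1 (x + Y)]
      congr 1
      abel
    have h2 : F (-x + Y) = F (x - Y) := by
      rw [← hF.1 (x - Y)]
      congr 1
      abel
    simp only [h1, h2, hF.1 x]
    ring
  · have h := hF.sum_nonneg' (ι := Fin m ⊕ Fin m) (Sum.elim x fun i => x i + Y)
      (Sum.elim c fun i => -c i)
    simp only [Fintype.sum_sum_type, Sum.elim_inl, Sum.elim_inr] at h
    refine h.trans (le_of_eq ?_)
    rw [← Finset.sum_add_distrib]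
    refine Finset.sum_congr rfl fun i _ => ?_
    rw [← Finset.sum_add_distrib, ← Finset.sum_add_distrib, ← Finset.sum_add_distrib]
    refine Finset.sum_congr rfl fun j _ => ?_
    have h1 : x i - (x j + Y) = x i - x j - Y := by abel
    have h2 : x i + Y - x j = x i - x j + Y := by abel
    have h3 : x i + Y - (x j + Y) = x i - x j := by abel
    rw [h1, h2, h3]
    ring

end PD

/-! ### Volumes of balls -/

lemma bvol_nonneg (n : ℕ) (s : ℝ) : 0 ≤ bvol n s := ENNReal.toReal_nonneg

lemma bvol_mul {n : ℕ} {a : ℝ} (ha : 0 < a) (s : ℝ) : bvol n (a * s) = a ^ n * bvol n s := by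
  unfold bvol
  have h := Measure.addHaar_ball_mul_of_pos (volume : Measure (EuclideanSpace ℝ (Fin n)))
    (0 : EuclideanSpace ℝ (Fin n)) ha s
  rw [h, ENNReal.toReal_mul, ENNReal.toReal_ofReal (by positivity), finrank_euclideanSpace,
    Fintype.card_fin]

lemma bvol_mono {n : ℕ} {s t : ℝ} (h : s ≤ t) : bvol n s ≤ bvol n t :=
  ENNReal.toReal_mono measure_ball_lt_top.ne (measure_mono (Metric.ball_subset_ball h))

lemma bvol_pos {n : ℕ} {s : ℝ} (hs : 0 < s) : 0 < bvol n s :=
  ENNReal.toReal_pos (Metric.measure_ball_pos _ _ hs).ne' measure_ball_lt_top.ne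

lemma one_le_bvol {n : ℕ} (hn : 0 < n) {s : ℝ} (hs : (n : ℝ) ≤ s) : 1 ≤ bvol n s := by
  have hmp := EuclideanSpace.volume_preserving_symm_measurableEquiv_toLp (Fin n)
  have hn0 : (0 : ℝ) < n := by exact_mod_cast hn
  set C : Set (Fin n → ℝ) := Set.pi Set.univ fun _ => Set.Ioo (-1 / 2 : ℝ) (1 / 2) with hC
  have hvC : volume C = 1 := by
    rw [hC, volume_pi_pi]
    simp only [Real.volume_Ioo]
    norm_num
  have hsub : C ⊆ (MeasurableEquiv.toLp 2 (Fin n → ℝ)) ⁻¹'
      Metric.ball (0 : EuclideanSpace ℝ (Fin n)) s := by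
    intro x hx
    rw [Set.mem_preimage, mem_ball_zero_iff]
    have h1 : ‖(MeasurableEquiv.toLp 2 (Fin n → ℝ)) x‖ ≤ ∑ i, |x i| := by
      rw [EuclideanSpace.norm_eq]
      refine Real.sqrt_le_iff.2 ⟨Finset.sum_nonneg fun i _ => abs_nonneg _, ?_⟩
      simp only [Real.norm_eq_abs]
      exact Finset.sum_sq_le_sq_sum_of_nonneg fun i _ => abs_nonneg _
    have h2 : ∑ i, |x i| ≤ ∑ _i : Fin n, (1 / 2 : ℝ) := by
      refine Finset.sum_le_sum fun i _ => ?_
      have := hx i (Set.mem_univ i)
      rw [abs_le]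
      constructor <;> linarith [this.1, this.2]
    rw [Finset.sum_const, Finset.card_univ, Fintype.card_fin, nsmul_eq_mul] at h2
    refine lt_of_le_of_lt (h1.trans h2) ?_
    linarith
  have h3 : volume C ≤ volume (Metric.ball (0 : EuclideanSpace ℝ (Fin n)) s) := by
    have h4 := (PiLp.volume_preserving_toLp (Fin n)).measure_preimage
      (s := Metric.ball (0 : EuclideanSpace ℝ (Fin n)) s)
      measurableSet_ball.nullMeasurableSet
    rw [← h4]
    exact measure_mono hsub
  rw [hvC] at h3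
  have h5 := ENNReal.toReal_mono measure_ball_lt_top.ne h3
  simpa [bvol] using h5

lemma one_le_gamma {n : ℕ} (hn : 0 < n) : 1 ≤ gamma n := by
  have h1 := inv_le_gamma hn (1 : Matrix (Fin n) (Fin n) ℝ) (by simp)
  refine le_trans ?_ h1
  unfold inv
  rw [Matrix.det_one, abs_one, Real.one_rpow, div_one]
  refine le_minSq hn _ fun w hw => ?_
  obtain ⟨i, hi⟩ : ∃ i, w i ≠ 0 := by
    by_contra hcon
    push Not at hcon
    exact hw (funext hcon)
  have h2 : (1 : ℝ) ≤ (w i : ℝ) ^ 2 := by
    have h3 : (1 : ℤ) ≤ w i ^ 2 := by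
      have := sq_pos_of_ne_zero hi
      omega
    exact_mod_cast h3
  refine h2.trans ?_
  rw [Matrix.one_mulVec]
  exact Finset.single_le_sum (f := fun i => (w i : ℝ) ^ 2) (fun j _ => sq_nonneg _)
    (Finset.mem_univ i)

/-! ### Lattice vectors -/

lemma norm_lat_sq {n : ℕ} (B : Matrix (Fin n) (Fin n) ℝ) (w : Fin n → ℤ) :
    ‖lat B w‖ ^ 2 = ∑ i, (B.mulVec (fun j => (w j : ℝ))) i ^ 2 := by
  rw [EuclideanSpace.norm_sq_eq]
  simp [lat]

lemma one_le_norm_lat {n : ℕ} {B : Matrix (Fin n) (Fin n) ℝ} (h : 1 ≤ minSq B)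
    {w : Fin n → ℤ} (hw : w ≠ 0) : 1 ≤ ‖lat B w‖ := by
  have h1 := h.trans (minSq_le B w hw)
  rw [← norm_lat_sq] at h1
  nlinarith [norm_nonneg (lat B w)]

lemma lat_zero {n : ℕ} (B : Matrix (Fin n) (Fin n) ℝ) : lat B 0 = 0 := by
  unfold lat
  have : (fun j : Fin n => (((0 : Fin n → ℤ) j : ℤ) : ℝ)) = 0 := by
    funext j
    simp
  rw [this, Matrix.mulVec_zero]
  rfl

lemma finite_lat {n : ℕ} {B : Matrix (Fin n) (Fin n) ℝ} (hB : B.det ≠ 0) (r : ℝ) :
    {w : Fin n → ℤ | ‖lat B w‖ < r}.Finite := by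
  refine Set.Finite.subset ((finite_short B hB (r ^ 2)).union (Set.finite_singleton 0)) ?_
  intro w hw
  rw [Set.mem_ofPred_eq] at hw
  by_cases h0 : w = 0
  · right
    exact h0
  · left
    refine ⟨h0, ?_⟩
    unfold normSq
    rw [← norm_lat_sq]
    exact pow_lt_pow_left₀ hw (norm_nonneg _) two_ne_zero

/-- The integer vectors giving short lattice vectors. -/
noncomputable def short {n : ℕ} (B : Matrix (Fin n) (Fin n) ℝ) (r : ℝ) : Finset (Fin n → ℤ) :=
  if hB : B.det ≠ 0 then (finite_lat hB r).toFinset else ∅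

lemma mem_short {n : ℕ} {B : Matrix (Fin n) (Fin n) ℝ} (hB : B.det ≠ 0) {r : ℝ}
    {w : Fin n → ℤ} : w ∈ short B r ↔ ‖lat B w‖ < r := by
  simp [short, hB]

/-- A separated tuple lies in a good lattice. -/
lemma exists_good (h2 : RowH2) {k n : ℕ} (hn : 0 < n) {X : Fin k → EuclideanSpace ℝ (Fin n)}
    (hX : Sep 1 X) : ∃ B : Matrix (Fin n) (Fin n) ℝ, Good B ∧ ∀ i, ∃ w : Fin n → ℤ,
      X i = lat B w := by
  obtain ⟨A, hA, hmin, hw⟩ := h2 k n hn X hX
  obtain ⟨B, N, hB, -, hAB, hminB, hmax⟩ := exists_max hn A hA one_pos hmin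
  have hcov := covers_max hn B one_pos ⟨hminB, hmax⟩ (θ := 2) (by norm_num)
  rw [Real.sqrt_one, mul_one] at hcov
  refine ⟨B, ⟨hB, hminB, hcov⟩, fun i => ?_⟩
  obtain ⟨w, hw⟩ := hw i
  refine ⟨N.mulVec w, ?_⟩
  rw [hw]
  unfold lat
  rw [hAB, ← Matrix.mulVec_mulVec]
  congr 2
  funext j
  simp [Matrix.mulVec, dotProduct]

section Main

variable {k n : ℕ}

/-- The sum of differences. -/
noncomputable def corr (η R : ℝ) (T : Finset (Matrix (Fin n) (Fin n) ℝ))
    (X : Fin k → EuclideanSpace ℝ (Fin n)) : ℝ :=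
  ∑ B ∈ T, ∑ w ∈ (Fintype.piFinset fun _ : Fin k => short B (R + 2)).erase 0,
    ((bvol n (1 / 2 - η / 2))⁻¹ ^ k * acp (R / 2 + η) (fun i => lat B (w i))) *
      (2 * acp (1 / 2) X - acp (1 / 2) (X - fun i => lat B (w i)) -
        acp (1 / 2) (X + fun i => lat B (w i)))

lemma acp_nonneg (h5 : RowH5a) (hn : 0 < n) {s : ℝ} (hs : 0 < s)
    (X : Fin k → EuclideanSpace ℝ (Fin n)) : 0 ≤ acp s X :=
  Finset.prod_nonneg fun i _ => (h5 n hn s hs).2.1 _

lemma acp_continuous (h5 : RowH5b) (hn : 0 < n) {s : ℝ} (hs : 0 < s) :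
    Continuous (acp s : (Fin k → EuclideanSpace ℝ (Fin n)) → ℝ) := by
  unfold acp
  exact continuous_finsetProd _ fun i _ => (h5 n hn s hs).comp (continuous_apply i)

lemma corr_coef_nonneg (h5 : RowH5a) (hn : 0 < n) {η R : ℝ} (hη : 0 < η) (hR : 0 < R)
    (Y : Fin k → EuclideanSpace ℝ (Fin n)) :
    0 ≤ (bvol n (1 / 2 - η / 2))⁻¹ ^ k * acp (R / 2 + η) Y :=
  mul_nonneg (pow_nonneg (inv_nonneg.2 (bvol_nonneg _ _)) _)
    (acp_nonneg h5 hn (by linarith) _)

/-- Row H6. -/
theorem rowH6_of (h2 : RowH2) (h4 : RowH4) (h5a : RowH5a) (h5b : RowH5b) (h5c : RowH5c) :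
    RowH6 := by
  classical
  intro k n hk hn R η hR hη hη1 T hT hcode
  have hn0 : (0 : ℝ) < n := by exact_mod_cast hn
  have hR0 : 0 < R := by linarith
  have hκ : 0 < bvol n (1 / 2 - η / 2) := bvol_pos (by linarith)
  have hs' : 0 < R / 2 + η := by linarith
  set ψ : (Fin k → EuclideanSpace ℝ (Fin n)) → ℝ := acp (R / 2) with hψ
  set φ : (Fin k → EuclideanSpace ℝ (Fin n)) → ℝ := acp (1 / 2) with hφ
  have hφc : Continuous φ := acp_continuous h5b hn (by norm_num)
  have hψc : Continuous ψ := acp_continuous h5b hn (by linarith)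
  obtain ⟨hφpd, hφi, hφint⟩ := h5c n hn (1 / 2) (by norm_num) k
  obtain ⟨hψpd, hψi, hψint⟩ := h5c n hn (R / 2) (by linarith) k
  have hφ0 : ∀ X, 0 ≤ φ X := fun X => acp_nonneg h5a hn (by norm_num) X
  have hc0 : ∀ Y : Fin k → EuclideanSpace ℝ (Fin n),
      0 ≤ (bvol n (1 / 2 - η / 2))⁻¹ ^ k * acp (R / 2 + η) Y :=
    fun Y => corr_coef_nonneg h5a hn hη hR0 Y
  have hd1 : Integrable (fun X => 2 * φ X) := hφi.const_mul 2
  have hd2 : ∀ Y : Fin k → EuclideanSpace ℝ (Fin n), Integrable (fun X => φ (X - Y)) :=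
    fun Y => hφi.comp_sub_right Y
  have hd3 : ∀ Y : Fin k → EuclideanSpace ℝ (Fin n), Integrable (fun X => φ (X + Y)) :=
    fun Y => hφi.comp_add_right Y
  have hd12 : ∀ Y : Fin k → EuclideanSpace ℝ (Fin n),
      Integrable (fun X => 2 * φ X - φ (X - Y)) := fun Y => hd1.sub (hd2 Y)
  have hdi : ∀ Y : Fin k → EuclideanSpace ℝ (Fin n),
      Integrable (fun X => 2 * φ X - φ (X - Y) - φ (X + Y)) := fun Y => (hd12 Y).sub (hd3 Y)
  have hdint : ∀ Y : Fin k → EuclideanSpace ℝ (Fin n),
      ∫ X, (2 * φ X - φ (X - Y) - φ (X + Y)) = 0 := by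
    intro Y
    rw [integral_sub (hd12 Y) (hd3 Y), integral_sub hd1 (hd2 Y), integral_const_mul,
      integral_sub_right_eq_self, integral_add_right_eq_self]
    ring
  have hcorri : Integrable (corr (k := k) η R T) := by
    unfold corr
    exact integrable_finsetSum _ fun B _ => integrable_finsetSum _ fun w _ =>
      (hdi _).const_mul _
  have hcorrint : ∫ X, corr (k := k) η R T X = 0 := by
    unfold corr
    rw [integral_finsetSum _ fun B _ => integrable_finsetSum _ fun w _ => (hdi _).const_mul _]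
    refine Finset.sum_eq_zero fun B _ => ?_
    rw [integral_finsetSum _ fun w _ => (hdi _).const_mul _]
    refine Finset.sum_eq_zero fun w _ => ?_
    rw [integral_const_mul]
    have := hdint fun i => lat B (w i)
    rw [show (∫ X, (2 * acp (1 / 2) X - acp (1 / 2) (X - fun i => lat B (w i)) -
      acp (1 / 2) (X + fun i => lat B (w i)))) = 0 from this, mul_zero]
  have hcorrc : Continuous (corr (k := k) η R T) := by
    unfold corr
    refine continuous_finsetSum _ fun B _ => continuous_finsetSum _ fun w _ => ?_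
    refine continuous_const.mul (((continuous_const.mul hφc).sub ?_).sub ?_)
    · exact hφc.comp (continuous_id.sub continuous_const)
    · exact hφc.comp (continuous_id.add continuous_const)
  have hint : ∫ X, (ψ X + corr η R T X) = bvol n (R / 2) ^ (2 * k) := by
    rw [integral_add hψi hcorri, hcorrint, add_zero]
    exact hψint
  refine ⟨fun X => ψ X + corr η R T X, ⟨one_pos, hψc.add hcorrc, hψi.add hcorri, ?_, ?_, ?_⟩, ?_⟩
  · refine hψpd.add ?_
    unfold corr
    exact PD.sum _ fun B _ => PD.sum _ fun w _ => (hφpd.diff _).const_mul (hc0 _)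
  · rw [hint]
    have := bvol_pos (n := n) (show 0 < R / 2 by linarith)
    positivity
  · -- the sign condition
    intro X hX0 hX
    have hX1 : ∀ i, X i = 0 ∨ 1 ≤ ‖X i‖ := by
      intro i
      have h := hX (Pi.single i 1)
      have h1 : ∑ l, (((Pi.single i 1 : Fin k → ℤ) l : ℤ) : ℝ) • X l = X i := by
        rw [Finset.sum_eq_single i]
        · simp
        · intro b _ hb
          simp [Pi.single_eq_of_ne hb]
        · intro hi
          exact absurd (Finset.mem_univ i) hi
      rwa [h1] at h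
    obtain ⟨i0, hi0⟩ : ∃ i, X i ≠ 0 := by
      by_contra hcon
      push Not at hcon
      exact hX0 (funext hcon)
    have hi1 : 1 ≤ ‖X i0‖ := (hX1 i0).resolve_left hi0
    have hφX : φ X = 0 := by
      rw [hφ]
      unfold acp
      exact Finset.prod_eq_zero (Finset.mem_univ i0)
        ((h5a n hn (1 / 2) (by norm_num)).1 _ (by linarith))
    set d : Matrix (Fin n) (Fin n) ℝ → (Fin k → Fin n → ℤ) → ℝ := fun B w =>
      ((bvol n (1 / 2 - η / 2))⁻¹ ^ k * acp (R / 2 + η) (fun i => lat B (w i))) *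
        (φ (X - fun i => lat B (w i)) + φ (X + fun i => lat B (w i))) with hd
    have hd0 : ∀ B w, 0 ≤ d B w := fun B w =>
      mul_nonneg (hc0 _) (add_nonneg (hφ0 _) (hφ0 _))
    have hcorr : corr η R T X = -∑ B ∈ T, ∑ w ∈ (Fintype.piFinset fun _ : Fin k =>
        short B (R + 2)).erase 0, d B w := by
      unfold corr
      rw [← Finset.sum_neg_distrib]
      refine Finset.sum_congr rfl fun B _ => ?_
      rw [← Finset.sum_neg_distrib]
      refine Finset.sum_congr rfl fun w _ => ?_
      have h1 : (acp (1 / 2) X : ℝ) = 0 := hφX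
      simp only [hd, hφ, h1]
      ring
    have hsum0 : 0 ≤ ∑ B ∈ T, ∑ w ∈ (Fintype.piFinset fun _ : Fin k =>
        short B (R + 2)).erase 0, d B w :=
      Finset.sum_nonneg fun B _ => Finset.sum_nonneg fun w _ => hd0 B w
    show ψ X + corr η R T X ≤ 0
    rw [hcorr]
    by_cases hbig : ∃ i, R ≤ ‖X i‖
    · obtain ⟨i, hi⟩ := hbig
      have hψX : ψ X = 0 := by
        rw [hψ]
        unfold acp
        exact Finset.prod_eq_zero (Finset.mem_univ i)
          ((h5a n hn (R / 2) (by linarith)).1 _ (by linarith))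
      rw [hψX]
      linarith
    · push Not at hbig
      obtain ⟨B, hB, hBX⟩ := exists_good h2 hn hX
      obtain ⟨B', hB'T, hB'⟩ := hcode B hB
      have hY : ∀ i, ∃ w' : Fin n → ℤ, ‖X i - lat B' w'‖ ≤ η := by
        intro i
        obtain ⟨w, hw⟩ := hBX i
        obtain ⟨w', hw'⟩ := hB' w (by rw [← hw]; exact hbig i)
        exact ⟨w', by rw [hw]; exact hw'⟩
      choose u hu using hY
      have hB'det : B'.det ≠ 0 := (hT B' hB'T).1
      have hmem : u ∈ (Fintype.piFinset fun _ : Fin k => short B' (R + 2)).erase 0 := by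
        rw [Finset.mem_erase]
        constructor
        · intro h0
          have h1 := hu i0
          have h2 : u i0 = 0 := congrFun h0 i0
          rw [h2, lat_zero, sub_zero] at h1
          linarith
        · rw [Fintype.mem_piFinset]
          intro i
          rw [mem_short hB'det]
          have h1 : ‖lat B' (u i)‖ ≤ ‖X i‖ + ‖X i - lat B' (u i)‖ := by
            have := norm_sub_le (X i) (X i - lat B' (u i))
            rwa [sub_sub_cancel] at this
          have h2 := hu i
          have h3 := hbig i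
          linarith
      have hone : ψ X ≤ d B' u := by
        have h1 : ψ X ≤ acp (R / 2 + η) (fun i => lat B' (u i)) := by
          rw [hψ]
          unfold acp
          refine Finset.prod_le_prod (fun i _ => (h5a n hn (R / 2) (by linarith)).2.1 _)
            fun i _ => ?_
          exact (h5a n hn (R / 2) (by linarith)).2.2.2.1 _ _ _ (hu i)
        have h2 : bvol n (1 / 2 - η / 2) ^ k ≤ φ (X - fun i => lat B' (u i)) := by
          rw [hφ]
          unfold acp
          calc bvol n (1 / 2 - η / 2) ^ k = ∏ _i : Fin k, bvol n (1 / 2 - η / 2) := by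
                rw [Finset.prod_const, Finset.card_univ, Fintype.card_fin]
            _ ≤ ∏ i, ac (1 / 2) ((X - fun i => lat B' (u i)) i) := by
                refine Finset.prod_le_prod (fun i _ => bvol_nonneg _ _) fun i _ => ?_
                exact (h5a n hn (1 / 2) (by norm_num)).2.2.2.2 _ _ (hu i)
        have h3 : 0 ≤ acp (R / 2 + η) (fun i => lat B' (u i)) := acp_nonneg h5a hn hs' _
        calc ψ X ≤ acp (R / 2 + η) (fun i => lat B' (u i)) := h1
          _ = ((bvol n (1 / 2 - η / 2))⁻¹ ^ k * acp (R / 2 + η) (fun i => lat B' (u i))) *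
              bvol n (1 / 2 - η / 2) ^ k := by
              rw [mul_comm ((bvol n (1 / 2 - η / 2))⁻¹ ^ k), mul_assoc, ← mul_pow,
                inv_mul_cancel₀ hκ.ne', one_pow, mul_one]
          _ ≤ d B' u := by
              refine mul_le_mul_of_nonneg_left ?_ (hc0 _)
              have := hφ0 (X + fun i => lat B' (u i))
              linarith
      have hle : d B' u ≤ ∑ B ∈ T, ∑ w ∈ (Fintype.piFinset fun _ : Fin k =>
          short B (R + 2)).erase 0, d B w := by
        refine le_trans ?_ (Finset.single_le_sum (f := fun B => ∑ w ∈ (Fintype.piFinset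
          fun _ : Fin k => short B (R + 2)).erase 0, d B w)
          (fun B _ => Finset.sum_nonneg fun w _ => hd0 B w) hB'T)
        exact Finset.single_le_sum (f := fun w => d B' w) (fun w _ => hd0 B' w) hmem
      linarith
  · -- the value at 0
    have hv1 : 1 ≤ bvol n (R / 2) := one_le_bvol hn (by linarith)
    have hφz : φ 0 = bvol n (1 / 2) ^ k := by
      rw [hφ]
      unfold acp
      simp only [Pi.zero_apply, (h5a n hn (1 / 2) (by norm_num)).2.2.1, Finset.prod_const,
        Finset.card_univ, Fintype.card_fin]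
    have hψz : ψ 0 = bvol n (R / 2) ^ k := by
      rw [hψ]
      unfold acp
      simp only [Pi.zero_apply, (h5a n hn (R / 2) (by linarith)).2.2.1, Finset.prod_const,
        Finset.card_univ, Fintype.card_fin]
    set G : ℝ := gamma n ^ ((n : ℝ) / 2) with hG
    have hG1 : 1 ≤ G := Real.one_le_rpow (one_le_gamma hn) (by positivity)
    set S : ℝ := bvol n (R / 2 + η + 2) ^ 2 * G with hS
    have hS0 : 0 ≤ S := by positivity
    set κ : ℝ := bvol n (1 / 2 - η / 2) with hκdef
    have hcorr0 : corr (k := k) η R T 0 ≤ 2 * bvol n (1 / 2) ^ k * (κ⁻¹ ^ k * (T.card * S ^ k)) := by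
      have hB1 : ∀ B ∈ T, ∑ w ∈ (Fintype.piFinset fun _ : Fin k => short B (R + 2)).erase 0,
          (κ⁻¹ ^ k * acp (R / 2 + η) (fun i => lat B (w i))) *
          (2 * acp (1 / 2) (0 : Fin k → EuclideanSpace ℝ (Fin n)) -
            acp (1 / 2) (0 - fun i => lat B (w i)) -
            acp (1 / 2) (0 + fun i => lat B (w i))) ≤ 2 * bvol n (1 / 2) ^ k * (κ⁻¹ ^ k * S ^ k) := by
        intro B hB
        calc ∑ w ∈ (Fintype.piFinset fun _ : Fin k => short B (R + 2)).erase 0,
            (κ⁻¹ ^ k * acp (R / 2 + η) (fun i => lat B (w i))) *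
            (2 * acp (1 / 2) (0 : Fin k → EuclideanSpace ℝ (Fin n)) -
              acp (1 / 2) (0 - fun i => lat B (w i)) -
              acp (1 / 2) (0 + fun i => lat B (w i)))
            ≤ ∑ w ∈ (Fintype.piFinset fun _ : Fin k => short B (R + 2)).erase 0,
              (κ⁻¹ ^ k * acp (R / 2 + η) (fun i => lat B (w i))) * (2 * bvol n (1 / 2) ^ k) := by
              refine Finset.sum_le_sum fun w _ => mul_le_mul_of_nonneg_left ?_ (hc0 _)
              have h1 : (acp (1 / 2) (0 : Fin k → EuclideanSpace ℝ (Fin n)) : ℝ) =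
                bvol n (1 / 2) ^ k := hφz
              have h2 := hφ0 (0 - fun i => lat B (w i))
              have h3 := hφ0 (0 + fun i => lat B (w i))
              rw [h1]
              simp only [hφ] at h2 h3
              linarith
          _ ≤ ∑ w ∈ (Fintype.piFinset fun _ : Fin k => short B (R + 2)),
              (κ⁻¹ ^ k * acp (R / 2 + η) (fun i => lat B (w i))) * (2 * bvol n (1 / 2) ^ k) := by
              refine Finset.sum_le_sum_of_subset_of_nonneg (Finset.erase_subset _ _) ?_
              intro w _ _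
              exact mul_nonneg (hc0 _) (by have := bvol_nonneg n (1 / 2); positivity)
          _ = 2 * bvol n (1 / 2) ^ k * (κ⁻¹ ^ k *
              ∏ _i : Fin k, ∑ w ∈ short B (R + 2), ac (R / 2 + η) (lat B w)) := by
              rw [Finset.prod_univ_sum, Finset.mul_sum, Finset.mul_sum]
              refine Finset.sum_congr rfl fun w _ => ?_
              unfold acp
              ring
          _ ≤ 2 * bvol n (1 / 2) ^ k * (κ⁻¹ ^ k * S ^ k) := by
              rw [Finset.prod_const, Finset.card_univ, Fintype.card_fin]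
              have h1 := h4 n hn B (hT B hB) (R / 2 + η) hs' (short B (R + 2))
              have h2 : 0 ≤ ∑ w ∈ short B (R + 2), ac (R / 2 + η) (lat B w) :=
                Finset.sum_nonneg fun w _ => (h5a n hn _ hs').2.1 _
              have h3 := pow_le_pow_left₀ h2 h1 k
              have h4' := bvol_nonneg n (1 / 2)
              exact mul_le_mul_of_nonneg_left (mul_le_mul_of_nonneg_left h3 (by positivity))
                (by positivity)
      unfold corr
      calc _ ≤ ∑ _B ∈ T, 2 * bvol n (1 / 2) ^ k * (κ⁻¹ ^ k * S ^ k) := Finset.sum_le_sum hB1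
        _ = 2 * bvol n (1 / 2) ^ k * (κ⁻¹ ^ k * (T.card * S ^ k)) := by
            rw [Finset.sum_const, nsmul_eq_mul]
            ring
    have hκs : κ = (1 - η) ^ n * bvol n (1 / 2) := by
      rw [hκdef, ← bvol_mul (by linarith)]
      congr 1
      ring
    have hSs : bvol n (R / 2 + η + 2) = (1 + (2 * η + 4) / R) ^ n * bvol n (R / 2) := by
      rw [← bvol_mul (by positivity)]
      congr 1
      field_simp
      ring
    show ψ 0 + corr η R T 0 ≤ _
    rw [hint, hψz]
    have hb : 0 < bvol n (1 / 2) := bvol_pos (by norm_num)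
    have h1η : 0 < 1 - η := by linarith
    set Θ : ℝ := (1 - η)⁻¹ ^ n * (1 + (2 * η + 4) / R) ^ (2 * n) * G with hΘ
    have hΘ1 : 1 ≤ Θ := by
      have h1 : 1 ≤ (1 - η)⁻¹ ^ n := one_le_pow₀ ((one_le_inv₀ h1η).2 (by linarith))
      have h2 : 1 ≤ (1 + (2 * η + 4) / R) ^ (2 * n) := by
        refine one_le_pow₀ ?_
        have : 0 ≤ (2 * η + 4) / R := by positivity
        linarith
      exact one_le_mul_of_one_le_of_one_le (one_le_mul_of_one_le_of_one_le h1 h2) hG1
    have hprod : bvol n (1 / 2) ^ k * (κ⁻¹ ^ k * S ^ k) = Θ ^ k * bvol n (R / 2) ^ (2 * k) := by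
      have h1 : bvol n (1 / 2) * (κ⁻¹ * S) = Θ * bvol n (R / 2) ^ 2 := by
        rw [hS, hSs, hκs, hΘ, mul_inv, inv_pow]
        field_simp
        ring
      rw [← mul_pow, ← mul_pow, h1, mul_pow, ← pow_mul]
    have hfirst : bvol n (R / 2) ^ k ≤ Θ ^ k * bvol n (R / 2) ^ (2 * k) := by
      have h1 : bvol n (R / 2) ^ k ≤ bvol n (R / 2) ^ (2 * k) :=
        pow_le_pow_right₀ hv1 (by omega)
      have h2 : 1 ≤ Θ ^ k := one_le_pow₀ hΘ1
      calc bvol n (R / 2) ^ k ≤ bvol n (R / 2) ^ (2 * k) := h1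
        _ ≤ Θ ^ k * bvol n (R / 2) ^ (2 * k) := le_mul_of_one_le_left (by positivity) h2
    calc bvol n (R / 2) ^ k + corr η R T 0
        ≤ Θ ^ k * bvol n (R / 2) ^ (2 * k) +
          2 * T.card * (bvol n (1 / 2) ^ k * (κ⁻¹ ^ k * S ^ k)) := by
          refine add_le_add hfirst (hcorr0.trans (le_of_eq ?_))
          ring
      _ = (1 + 2 * T.card) * Θ ^ k * bvol n (R / 2) ^ (2 * k) := by
          rw [hprod]
          ring

end Main

end Pool.Agent.Lib.LPH
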