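import Pool.Agent.Lib.LPH.Defs

/-!
Project LPH, row H3: few types of good lattices.
-/

set_option autoImplicit false

namespace Pool.Agent.Lib.LPH

open Finset
open Pool.Agent.Lib.MP_ef2672_gt_Tauber Pool.Agent.Lib.MP_ef2672_gt_Over Pool.Agent.Lib.EF_h73

namespace Codes

variable {n : ℕ}

/-- The real matrix of an integer matrix. -/
noncomputable abbrev rc (N : Matrix (Fin n) (Fin n) ℤ) : Matrix (Fin n) (Fin n) ℝ :=
  N.map (Int.cast : ℤ → ℝ)

/-- The columns of `B N` are near the vectors `3 n e_j`. -/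
def IsPair (B : Matrix (Fin n) (Fin n) ℝ) (N : Matrix (Fin n) (Fin n) ℤ) : Prop :=
  ∀ i j, |(B * rc N) i j - (if i = j then 3 * (n : ℝ) else 0)| ≤ 2

lemma abs_coord_le (x : EuclideanSpace ℝ (Fin n)) (i : Fin n) : |x i| ≤ ‖x‖ := by
  rw [← Real.norm_eq_abs]
  exact PiLp.norm_apply_le x i

lemma exists_pair {B : Matrix (Fin n) (Fin n) ℝ} (hB : Good B) :
    ∃ N : Matrix (Fin n) (Fin n) ℤ, IsPair B N := by
  obtain ⟨hdet, -, hcov⟩ := hB
  have hu : IsUnit B.det := isUnit_iff_ne_zero.2 hdet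
  have h1 : ∀ j : Fin n, ∃ s : Fin n → ℤ, ∀ i,
      |B.mulVec (fun l => (s l : ℝ)) i - (if i = j then 3 * (n : ℝ) else 0)| ≤ 2 := by
    intro j
    set e : Fin n → ℝ := fun i => if i = j then 3 * (n : ℝ) else 0 with he
    obtain ⟨s, hs⟩ := hcov (B⁻¹.mulVec e)
    refine ⟨s, fun i => ?_⟩
    rw [nq_eq] at hs
    have h2 : B.mulVec (fun i => B⁻¹.mulVec e i - (s i : ℝ)) = e - B.mulVec fun l => (s l : ℝ) := by
      have : (fun i => B⁻¹.mulVec e i - (s i : ℝ)) = B⁻¹.mulVec e - fun l => (s l : ℝ) := rfl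
      rw [this, Matrix.mulVec_sub, Matrix.mulVec_mulVec, Matrix.mul_nonsing_inv _ hu,
        Matrix.one_mulVec]
    rw [h2] at hs
    have h3 := (abs_coord_le _ i).trans hs
    have h4 : (WithLp.toLp 2 (e - B.mulVec fun l => (s l : ℝ)) : EuclideanSpace ℝ (Fin n)) i =
        e i - B.mulVec (fun l => (s l : ℝ)) i := rfl
    rw [h4, abs_sub_comm] at h3
    exact h3
  choose s hs using h1
  refine ⟨fun i j => s j i, fun i j => ?_⟩
  have h5 : (B * rc fun i j => s j i) i j = B.mulVec (fun l => (s j l : ℝ)) i := rfl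
  rw [h5]
  exact hs j i

lemma pair_bound (hn : 0 < n) {B : Matrix (Fin n) (Fin n) ℝ} {N : Matrix (Fin n) (Fin n) ℤ}
    (h : IsPair B N) (i j : Fin n) : |(B * rc N) i j| ≤ 5 * n := by
  have h1 := abs_le.1 (h i j)
  have hn1 : (1 : ℝ) ≤ n := by exact_mod_cast hn
  rw [abs_le]
  split_ifs at h1 with hij
  · constructor <;> linarith [h1.1, h1.2]
  · constructor <;> linarith [h1.1, h1.2]

/-- Diagonal dominance. -/
lemma pair_dom (hn : 0 < n) {B : Matrix (Fin n) (Fin n) ℝ} {N : Matrix (Fin n) (Fin n) ℤ}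
    (h : IsPair B N) {q : Fin n → ℝ} {M : ℝ} (hq : ∀ i, |(B * rc N).mulVec q i| ≤ M) (j : Fin n) :
    |q j| ≤ M / n := by
  have hn0 : (0 : ℝ) < n := by exact_mod_cast hn
  have : Nonempty (Fin n) := ⟨j⟩
  obtain ⟨i, hi⟩ := Finite.exists_max fun i => |q i|
  refine (hi j).trans ?_
  rw [le_div_iff₀ hn0]
  have h1 : (B * rc N).mulVec q i = 3 * n * q i +
      ∑ l : Fin n, ((B * rc N) i l - (if i = l then 3 * (n : ℝ) else 0)) * q l := by
    have h2 : ∑ l : Fin n, (if i = l then 3 * (n : ℝ) else 0) * q l = 3 * n * q i := by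
      simp
    rw [← h2, ← Finset.sum_add_distrib]
    change ∑ l : Fin n, (B * rc N) i l * q l = _
    refine Finset.sum_congr rfl fun l _ => ?_
    ring
  have h3 : |∑ l : Fin n, ((B * rc N) i l - (if i = l then 3 * (n : ℝ) else 0)) * q l| ≤
      2 * n * |q i| := by
    refine (Finset.abs_sum_le_sum_abs _ _).trans ?_
    calc ∑ l, |((B * rc N) i l - (if i = l then 3 * (n : ℝ) else 0)) * q l|
        ≤ ∑ _l : Fin n, 2 * |q i| := by
          refine Finset.sum_le_sum fun l _ => ?_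
          rw [abs_mul]
          exact mul_le_mul (h i l) (hi l) (abs_nonneg _) (by norm_num)
      _ = 2 * n * |q i| := by
          rw [Finset.sum_const, Finset.card_univ, Fintype.card_fin, nsmul_eq_mul]
          ring
  have h4 := hq i
  rw [h1] at h4
  have h5 : |3 * n * q i| = 3 * n * |q i| := by
    rw [abs_mul, abs_of_pos (by positivity)]
  have h6 := abs_sub_abs_le_abs_sub (3 * n * q i)
    (-∑ l, ((B * rc N) i l - (if i = l then 3 * (n : ℝ) else 0)) * q l)
  rw [abs_neg, sub_neg_eq_add, h5] at h6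
  linarith

lemma pair_det_ne (hn : 0 < n) {B : Matrix (Fin n) (Fin n) ℝ} {N : Matrix (Fin n) (Fin n) ℤ}
    (h : IsPair B N) : (B * rc N).det ≠ 0 := by
  intro h0
  obtain ⟨v, hv, hv0⟩ := Matrix.exists_mulVec_eq_zero_iff.2 h0
  apply hv
  funext j
  have h1 := pair_dom hn h (q := v) (M := 0) (fun i => by rw [hv0]; simp) j
  rw [zero_div] at h1
  exact abs_eq_zero.1 (le_antisymm h1 (abs_nonneg _))

lemma det_rc (N : Matrix (Fin n) (Fin n) ℤ) : (rc N).det = (N.det : ℝ) :=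
  (RingHom.map_det (Int.castRingHom ℝ) N).symm

lemma pair_det_ne' (hn : 0 < n) {B : Matrix (Fin n) (Fin n) ℝ} {N : Matrix (Fin n) (Fin n) ℤ}
    (h : IsPair B N) : N.det ≠ 0 := by
  intro h0
  apply pair_det_ne hn h
  rw [Matrix.det_mul, det_rc, h0]
  simp

lemma pair_det_le (hn : 0 < n) {B : Matrix (Fin n) (Fin n) ℝ} (hB : Good B)
    {N : Matrix (Fin n) (Fin n) ℤ} (h : IsPair B N) : |N.det| ≤ ((5 * n) ^ (3 * n) : ℕ) := by
  have hn0 : (0 : ℝ) < n := by exact_mod_cast hn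
  have hn1 : (1 : ℝ) ≤ n := by exact_mod_cast hn
  have h1 : |(B * rc N).det| ≤ (n : ℝ) ^ n * (5 * n) ^ n := by
    have h2 := Matrix.det_le (A := B * rc N) (abv := (AbsoluteValue.abs : AbsoluteValue ℝ ℝ))
      (x := 5 * n) (fun i j => pair_bound hn h i j)
    rw [Fintype.card_fin, nsmul_eq_mul] at h2
    refine h2.trans ?_
    have h3 : ((n.factorial : ℕ) : ℝ) ≤ (n : ℝ) ^ n := by exact_mod_cast Nat.factorial_le_pow n
    exact mul_le_mul_of_nonneg_right h3 (by positivity)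
  have h4 : (1 / (n : ℝ)) ^ n ≤ |B.det| := by
    have h5 := det_ge hn B hB.1 one_pos hB.2.1
    refine le_trans ?_ h5
    have hg : 0 < gamma n := by
      have := gamma_ge hn
      refine lt_of_lt_of_le ?_ this
      positivity
    have h6 : (1 / (n : ℝ)) ^ n ≤ (1 / (n : ℝ)) ^ ((n : ℝ) / 2) := by
      rw [← Real.rpow_natCast]
      refine Real.rpow_le_rpow_of_exponent_ge (by positivity) ?_ (by linarith)
      rw [div_le_one hn0]
      exact hn1
    refine h6.trans (Real.rpow_le_rpow (by positivity) ?_ (by positivity))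
    exact one_div_le_one_div_of_le hg (gamma_le hn)
  have h7 : (|N.det| : ℝ) ≤ (n : ℝ) ^ n * (5 * n) ^ n * n ^ n := by
    rw [Matrix.det_mul, det_rc, abs_mul] at h1
    have h8 : 0 < |B.det| := abs_pos.2 hB.1
    have h9 : |(N.det : ℝ)| * (1 / (n : ℝ)) ^ n ≤ (n : ℝ) ^ n * (5 * n) ^ n := by
      refine le_trans ?_ h1
      rw [mul_comm]
      exact mul_le_mul_of_nonneg_right h4 (abs_nonneg _)
    rw [one_div, inv_pow, ← div_eq_mul_inv, div_le_iff₀ (by positivity)] at h9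
    exact h9
  have h10 : (n : ℝ) ^ n * (5 * n) ^ n * n ^ n ≤ ((5 * n) ^ (3 * n) : ℕ) := by
    push_cast
    have h11 : (n : ℝ) ^ n ≤ (5 * n) ^ n := pow_le_pow_left₀ hn0.le (by linarith) n
    calc (n : ℝ) ^ n * (5 * n) ^ n * n ^ n ≤ (5 * n) ^ n * (5 * n) ^ n * (5 * n) ^ n := by gcongr
      _ = (5 * n) ^ (3 * n) := by rw [← pow_add, ← pow_add]; congr 1; ring
  have h12 := h7.trans h10
  rw [← Int.cast_abs] at h12
  exact_mod_cast h12

/-- The code of a pair. -/
noncomputable def code (δ : ℝ) (p : Matrix (Fin n) (Fin n) ℝ × Matrix (Fin n) (Fin n) ℤ) :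
    (Fin n → Fin n → ℤ) × ℤ × (Fin n → Fin n → ℤ) :=
  (fun i j => ⌊(p.1 * rc p.2) i j / δ⌋, p.2.det, fun i j => p.2.adjugate i j % p.2.det)

lemma mulVec_cast (N : Matrix (Fin n) (Fin n) ℤ) (w : Fin n → ℤ) :
    (rc N).mulVec (fun j => (w j : ℝ)) = fun i => ((N.mulVec w i : ℤ) : ℝ) := by
  funext i
  simp [Matrix.mulVec, dotProduct]

/-- Equal codes. -/
lemma near_of_code (hn : 0 < n) {R η : ℝ} (hR : 1 ≤ R) (hη : 0 < η)
    {B B' : Matrix (Fin n) (Fin n) ℝ} {N N' : Matrix (Fin n) (Fin n) ℤ}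
    (h : IsPair B N) (hc : code (η / (n * R)) (B, N) = code (η / (n * R)) (B', N'))
    (w : Fin n → ℤ) (hw : ‖lat B w‖ < R) : ∃ w' : Fin n → ℤ, ‖lat B w - lat B' w'‖ ≤ η := by
  have hn0 : (0 : ℝ) < n := by exact_mod_cast hn
  have hR0 : 0 < R := by linarith
  set δ : ℝ := η / (n * R) with hδ
  have hδ0 : 0 < δ := by positivity
  simp only [code, Prod.mk.injEq] at hc
  obtain ⟨hc1, hc2, hc3⟩ := hc
  set D : ℤ := N.det with hD
  have hD0 : D ≠ 0 := pair_det_ne' hn h
  have hDr : (D : ℝ) ≠ 0 := by exact_mod_cast hD0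
  have hE : ∀ i j, ∃ e : ℤ, N.adjugate i j - N'.adjugate i j = D * e := by
    intro i j
    have h1 := congrFun (congrFun hc3 i) j
    rw [← hc2] at h1
    have h2 : D ∣ N.adjugate i j - N'.adjugate i j :=
      Int.ModEq.dvd (show N'.adjugate i j % D = N.adjugate i j % D from h1.symm)
    obtain ⟨e, he⟩ := h2
    exact ⟨e, he⟩
  choose E' hE' using hE
  set E : Matrix (Fin n) (Fin n) ℤ := Matrix.of E' with hEdef
  have hadj : N.adjugate = N'.adjugate + D • E := by
    ext i j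
    have := hE' i j
    simp only [Matrix.add_apply, Matrix.smul_apply, smul_eq_mul, hEdef, Matrix.of_apply]
    linarith
  set z : Fin n → ℤ := N.adjugate.mulVec w with hz
  have hNz : N.mulVec z = D • w := by
    rw [hz, Matrix.mulVec_mulVec, Matrix.mul_adjugate, Matrix.smul_mulVec, Matrix.one_mulVec]
  set w' : Fin n → ℤ := w + N'.mulVec (E.mulVec w) with hw'
  have hN'z : N'.mulVec z = D • w' := by
    rw [hz, hadj, Matrix.add_mulVec, Matrix.mulVec_add, Matrix.mulVec_mulVec,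
      Matrix.mul_adjugate, ← hc2, Matrix.smul_mulVec, Matrix.one_mulVec,
      Matrix.smul_mulVec, Matrix.mulVec_smul, ← smul_add]
  set q : Fin n → ℝ := fun i => (z i : ℝ) / D with hq
  have hqs : q = (D : ℝ)⁻¹ • fun i => (z i : ℝ) := by
    funext i
    simp only [hq, Pi.smul_apply, smul_eq_mul]
    ring
  have key : ∀ (C : Matrix (Fin n) (Fin n) ℝ) (M : Matrix (Fin n) (Fin n) ℤ) (v : Fin n → ℤ),
      M.mulVec z = D • v → (C * rc M).mulVec q = C.mulVec (fun j => (v j : ℝ)) := by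
    intro C M v hv
    rw [← Matrix.mulVec_mulVec, hqs, Matrix.mulVec_smul, mulVec_cast, hv]
    congr 1
    funext j
    simp only [Pi.smul_apply, smul_eq_mul, Int.cast_mul]
    field_simp
  have hVq := key B N w hNz
  have hV'q := key B' N' w' hN'z
  refine ⟨w', ?_⟩
  have hqb : ∀ j, |q j| ≤ R / n := by
    refine pair_dom hn h fun i => ?_
    rw [hVq]
    exact (abs_coord_le (lat B w) i).trans hw.le
  have hcoord : ∀ i, |(lat B w - lat B' w') i| ≤ δ * R := by
    intro i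
    have h1 : (lat B w - lat B' w') i = ∑ j, ((B * rc N) i j - (B' * rc N') i j) * q j := by
      have h2 : (lat B w - lat B' w') i =
          B.mulVec (fun j => (w j : ℝ)) i - B'.mulVec (fun j => (w' j : ℝ)) i := rfl
      rw [h2, ← hVq, ← hV'q]
      simp only [Matrix.mulVec, dotProduct]
      rw [← Finset.sum_sub_distrib]
      refine Finset.sum_congr rfl fun j _ => ?_
      ring
    rw [h1]
    refine (Finset.abs_sum_le_sum_abs _ _).trans ?_
    calc ∑ j, |((B * rc N) i j - (B' * rc N') i j) * q j| ≤ ∑ _j : Fin n, δ * (R / n) := by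
          refine Finset.sum_le_sum fun j _ => ?_
          rw [abs_mul]
          refine mul_le_mul ?_ (hqb j) (abs_nonneg _) hδ0.le
          have h3 := Int.abs_sub_lt_one_of_floor_eq_floor (congrFun (congrFun hc1 i) j)
          rw [← sub_div, abs_div, abs_of_pos hδ0, div_lt_one hδ0] at h3
          exact h3.le
      _ = δ * R := by
          rw [Finset.sum_const, Finset.card_univ, Fintype.card_fin, nsmul_eq_mul]
          field_simp
  have hnorm : ‖lat B w - lat B' w'‖ ≤ ∑ i, |(lat B w - lat B' w') i| := by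
    rw [EuclideanSpace.norm_eq]
    refine Real.sqrt_le_iff.2 ⟨Finset.sum_nonneg fun i _ => abs_nonneg _, ?_⟩
    simp only [Real.norm_eq_abs]
    exact Finset.sum_sq_le_sq_sum_of_nonneg fun i _ => abs_nonneg _
  refine hnorm.trans ?_
  calc ∑ i, |(lat B w - lat B' w') i| ≤ ∑ _i : Fin n, δ * R := Finset.sum_le_sum fun i _ => hcoord i
    _ = η := by
        rw [Finset.sum_const, Finset.card_univ, Fintype.card_fin, nsmul_eq_mul, hδ]
        field_simp

/-- The finite set of codes. -/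
noncomputable def codes (n a b : ℕ) : Finset ((Fin n → Fin n → ℤ) × ℤ × (Fin n → Fin n → ℤ)) :=
  (Fintype.piFinset fun _ => Fintype.piFinset fun _ => Finset.Icc (-(a : ℤ)) a) ×ˢ
    (Finset.Icc (-(b : ℤ)) b ×ˢ
      (Fintype.piFinset fun _ => Fintype.piFinset fun _ => Finset.Ico (0 : ℤ) b))

lemma card_codes (n a b : ℕ) :
    (codes n a b).card = (2 * a + 1) ^ (n ^ 2) * ((2 * b + 1) * b ^ (n ^ 2)) := by
  have h1 : ∀ c : ℕ, ((c : ℤ) + 1 - -(c : ℤ)).toNat = 2 * c + 1 := by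
    intro c
    omega
  simp only [codes, Finset.card_product, Fintype.card_piFinset, Finset.prod_const,
    Finset.card_univ, Fintype.card_fin, Int.card_Icc, Int.card_Ico, h1, ← pow_mul, ← sq, sub_zero,
    Int.toNat_natCast]

lemma code_mem (hn : 0 < n) {R η : ℝ} (hR : 1 ≤ R) (hη : 0 < η)
    {B : Matrix (Fin n) (Fin n) ℝ} (hB : Good B) {N : Matrix (Fin n) (Fin n) ℤ} (h : IsPair B N) :
    code (η / (n * R)) (B, N) ∈ codes n ⌈5 * n ^ 2 * R / η⌉₊ ((5 * n) ^ (3 * n)) := by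
  have hn0 : (0 : ℝ) < n := by exact_mod_cast hn
  have hR0 : 0 < R := by linarith
  have hD0 := pair_det_ne' hn h
  have hD := pair_det_le hn hB h
  simp only [codes, code, Finset.mem_product, Fintype.mem_piFinset, Finset.mem_Icc, Finset.mem_Ico]
  refine ⟨fun i j => ?_, ⟨?_, ?_⟩, fun i j => ⟨?_, ?_⟩⟩
  · have h1 : |(B * rc N) i j / (η / (n * R))| ≤ ⌈5 * n ^ 2 * R / η⌉₊ := by
      refine le_trans ?_ (Nat.le_ceil _)
      rw [abs_div, abs_of_pos (show 0 < η / (n * R) by positivity), div_le_iff₀ (by positivity)]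
      refine (pair_bound hn h i j).trans (le_of_eq ?_)
      field_simp
    have h2 := abs_le.1 h1
    constructor
    · rw [Int.le_floor]
      push_cast
      exact h2.1
    · have h3 : ((⌊(B * rc N) i j / (η / (n * R))⌋ : ℤ) : ℝ) ≤ (⌈5 * n ^ 2 * R / η⌉₊ : ℕ) :=
        (Int.floor_le _).trans h2.2
      exact_mod_cast h3
  · exact (abs_le.1 hD).1
  · exact (abs_le.1 hD).2
  · exact Int.emod_nonneg _ hD0
  · exact (Int.emod_lt_abs _ hD0).trans_le hD

end Codes

open Codes in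
/-- Row H3. -/
theorem rowH3 : RowH3 := by
  classical
  intro n hn R η hR hη hη1
  have hn0 : (0 : ℝ) < n := by exact_mod_cast hn
  have hn1 : (1 : ℝ) ≤ n := by exact_mod_cast hn
  set δ : ℝ := η / (n * R) with hδ
  set a : ℕ := ⌈5 * n ^ 2 * R / η⌉₊ with ha
  set b : ℕ := (5 * n) ^ (3 * n) with hb
  set P : (Fin n → Fin n → ℤ) × ℤ × (Fin n → Fin n → ℤ) → Prop := fun c =>
    ∃ p : Matrix (Fin n) (Fin n) ℝ × Matrix (Fin n) (Fin n) ℤ,
      Good p.1 ∧ IsPair p.1 p.2 ∧ code δ p = c with hP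
  set rep : (Fin n → Fin n → ℤ) × ℤ × (Fin n → Fin n → ℤ) → Matrix (Fin n) (Fin n) ℝ := fun c =>
    if h : P c then h.choose.1 else 1 with hrep
  refine ⟨((codes n a b).filter P).image rep, ?_, ?_, ?_⟩
  · intro B hB
    obtain ⟨c, hc, rfl⟩ := Finset.mem_image.1 hB
    have h1 := (Finset.mem_filter.1 hc).2
    simp only [hrep, dif_pos h1]
    exact h1.choose_spec.1
  · have h1 : ((((codes n a b).filter P).image rep).card : ℝ) ≤ (codes n a b).card := by
      exact_mod_cast Finset.card_image_le.trans (Finset.card_filter_le _ _)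
    refine h1.trans ?_
    rw [card_codes]
    push_cast
    have h2 : (1 : ℝ) ≤ n ^ 2 * R / η := by
      rw [le_div_iff₀ hη, one_mul]
      have : (1 : ℝ) ≤ n ^ 2 * R := by nlinarith
      linarith
    have h3 : (2 * (a : ℝ) + 1) ≤ 13 * n ^ 2 * R / η := by
      have h4 : (a : ℝ) < 5 * n ^ 2 * R / η + 1 := Nat.ceil_lt_add_one (by positivity)
      have h5 : 5 * n ^ 2 * R / η = 5 * (n ^ 2 * R / η) := by ring
      have h6 : 13 * n ^ 2 * R / η = 13 * (n ^ 2 * R / η) := by ring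
      rw [h5] at h4
      rw [h6]
      linarith
    have hb1 : (1 : ℝ) ≤ b := by
      have : 0 < b := by positivity
      exact_mod_cast this
    have hbr : (b : ℝ) = (5 * n : ℝ) ^ (3 * n) := by
      rw [hb]
      push_cast
      rfl
    calc (2 * (a : ℝ) + 1) ^ (n ^ 2) * ((2 * b + 1) * (b : ℝ) ^ (n ^ 2))
        ≤ (13 * n ^ 2 * R / η) ^ (n ^ 2) * ((3 * b) * (b : ℝ) ^ (n ^ 2)) := by
          have h7 : 2 * (b : ℝ) + 1 ≤ 3 * b := by linarith
          gcongr
      _ = 3 * (13 * n ^ 2 * R / η) ^ (n ^ 2) * (5 * n : ℝ) ^ (3 * n * (n ^ 2 + 1)) := by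
          rw [pow_mul (5 * (n : ℝ)) (3 * n), ← hbr, pow_succ]
          ring
  · intro B hB
    obtain ⟨N, hN⟩ := exists_pair hB
    have hPc : P (code δ (B, N)) := ⟨(B, N), hB, hN, rfl⟩
    refine ⟨rep (code δ (B, N)), Finset.mem_image.2 ⟨_, Finset.mem_filter.2
      ⟨code_mem hn hR hη hB hN, hPc⟩, rfl⟩, fun w hw => ?_⟩
    have h1 := hPc.choose_spec
    have h2 : rep (code δ (B, N)) = hPc.choose.1 := by
      simp only [hrep, dif_pos hPc]
    rw [h2]
    exact near_of_code hn hR hη hN (N' := hPc.choose.2) (B' := hPc.choose.1)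
      (by rw [h1.2.2]) w hw

end Pool.Agent.Lib.LPH
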