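import Pool.Agent.Lib.MP_ef2672_gt_Over.Rogers

/-!
MP_ef2672, project LPH: a hierarchy of linear programs for Hermite's constant. Definitions.
-/

set_option autoImplicit false

namespace Pool.Agent.Lib.LPH

open MeasureTheory Filter Topology
open Pool.Agent.Lib.MP_ef2672_gt_Tauber Pool.Agent.Lib.MP_ef2672_gt_Over

/-- The `k`-tuple `X` of vectors of `ℝⁿ` is `r`-separated: every integer combination of
`X₁, …, X_k` is `0` or has norm at least `r`. -/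
def Sep {k n : ℕ} (r : ℝ) (X : Fin k → EuclideanSpace ℝ (Fin n)) : Prop :=
  ∀ a : Fin k → ℤ, ∑ i, (a i : ℝ) • X i = 0 ∨ r ≤ ‖∑ i, (a i : ℝ) • X i‖

/-- Positive definite functions on an additive group. -/
def PD {V : Type*} [AddCommGroup V] (F : V → ℝ) : Prop :=
  (∀ x, F (-x) = F x) ∧ ∀ (m : ℕ) (x : Fin m → V) (c : Fin m → ℝ),
    0 ≤ ∑ i, ∑ j, c i * c j * F (x i - x j)

/-- `(F, r)` is admissible at level `k` in dimension `n`: `r > 0`, `F` is a continuous, integrable,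
positive definite function of `k`-tuples of vectors of `ℝⁿ` with `∫ F > 0`, and `F X ≤ 0` for every
nonzero `r`-separated `X`. -/
def Adm (k n : ℕ) (F : (Fin k → EuclideanSpace ℝ (Fin n)) → ℝ) (r : ℝ) : Prop :=
  0 < r ∧ Continuous F ∧ Integrable F ∧ PD F ∧ 0 < ∫ X, F X ∧
    ∀ X, X ≠ 0 → Sep r X → F X ≤ 0

/-- The value of an admissible pair, in the normalisation of Hermite's constant. -/
noncomputable def val (k n : ℕ) (F : (Fin k → EuclideanSpace ℝ (Fin n)) → ℝ) (r : ℝ) : ℝ :=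
  r ^ 2 * (F 0 / ∫ X, F X) ^ ((2 : ℝ) / (n * k : ℕ))

/-- The linear programming bound of level `k` in dimension `n`. -/
noncomputable def lp (k n : ℕ) : ℝ :=
  sInf {t : ℝ | ∃ (F : (Fin k → EuclideanSpace ℝ (Fin n)) → ℝ) (r : ℝ), Adm k n F r ∧
    t = val k n F r}

/-! ### Auxiliary notions for the proof -/

/-- The lattice vector `B w`. -/
noncomputable def lat {n : ℕ} (B : Matrix (Fin n) (Fin n) ℝ) (w : Fin n → ℤ) :
    EuclideanSpace ℝ (Fin n) :=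
  WithLp.toLp 2 (B.mulVec (fun j => (w j : ℝ)))

/-- A good lattice: minimum at least `1` and covering radius at most `2`. -/
def Good {n : ℕ} (B : Matrix (Fin n) (Fin n) ℝ) : Prop :=
  B.det ≠ 0 ∧ 1 ≤ minSq B ∧ Covers B 2

/-- The volume of the ball of radius `s`. -/
noncomputable def bvol (n : ℕ) (s : ℝ) : ℝ :=
  (volume (Metric.ball (0 : EuclideanSpace ℝ (Fin n)) s)).toReal

/-- The autocorrelation of the ball of radius `s`. -/
noncomputable def ac {n : ℕ} (s : ℝ) (x : EuclideanSpace ℝ (Fin n)) : ℝ :=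
  (volume (Metric.ball (0 : EuclideanSpace ℝ (Fin n)) s ∩ Metric.ball x s)).toReal

/-- The product of the autocorrelations. -/
noncomputable def acp {k n : ℕ} (s : ℝ) (X : Fin k → EuclideanSpace ℝ (Fin n)) : ℝ :=
  ∏ i, ac s (X i)

/-! ### Rows -/

/-- H1: the bound for one lattice. -/
def RowH1 : Prop := ∀ (k n : ℕ), 0 < k → 0 < n → ∀ (A : Matrix (Fin n) (Fin n) ℝ), A.det ≠ 0 →
  ∀ F : (Fin k → EuclideanSpace ℝ (Fin n)) → ℝ, Continuous F → Integrable F → PD F →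
    (∀ w : Fin k → Fin n → ℤ, w ≠ 0 → F (fun i => lat A (w i)) ≤ 0) →
    ∫ X, F X ≤ |A.det| ^ k * F 0

/-- H2: a separated tuple lies in a lattice of minimum at least `1`. -/
def RowH2 : Prop := ∀ (k n : ℕ), 0 < n → ∀ X : Fin k → EuclideanSpace ℝ (Fin n), Sep 1 X →
  ∃ A : Matrix (Fin n) (Fin n) ℝ, A.det ≠ 0 ∧ 1 ≤ minSq A ∧ ∀ i, ∃ w : Fin n → ℤ, X i = lat A w

/-- H3: few types of good lattices. -/
def RowH3 : Prop := ∀ (n : ℕ), 0 < n → ∀ R η : ℝ, 1 ≤ R → 0 < η → η ≤ 1 →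
  ∃ T : Finset (Matrix (Fin n) (Fin n) ℝ), (∀ B ∈ T, Good B) ∧
    (T.card : ℝ) ≤ 3 * (13 * n ^ 2 * R / η) ^ (n ^ 2) * (5 * n : ℝ) ^ (3 * n * (n ^ 2 + 1)) ∧
    ∀ B : Matrix (Fin n) (Fin n) ℝ, Good B → ∃ B' ∈ T, ∀ w : Fin n → ℤ, ‖lat B w‖ < R →
      ∃ w' : Fin n → ℤ, ‖lat B w - lat B' w'‖ ≤ η

/-- H4: the sum of the autocorrelation of a ball over a good lattice. -/
def RowH4 : Prop := ∀ (n : ℕ), 0 < n → ∀ B : Matrix (Fin n) (Fin n) ℝ, Good B →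
  ∀ s : ℝ, 0 < s → ∀ W : Finset (Fin n → ℤ),
    ∑ w ∈ W, ac s (lat B w) ≤ bvol n (s + 2) ^ 2 * gamma n ^ ((n : ℝ) / 2)

/-- H5a: autocorrelations of balls. -/
def RowH5a : Prop := ∀ (n : ℕ), 0 < n → ∀ s : ℝ, 0 < s →
  (∀ x : EuclideanSpace ℝ (Fin n), 2 * s ≤ ‖x‖ → ac s x = 0) ∧
  (∀ x : EuclideanSpace ℝ (Fin n), 0 ≤ ac s x) ∧
  ac s (0 : EuclideanSpace ℝ (Fin n)) = bvol n s ∧
  (∀ (x y : EuclideanSpace ℝ (Fin n)) (η : ℝ), ‖x - y‖ ≤ η → ac s x ≤ ac (s + η) y) ∧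
  (∀ (x : EuclideanSpace ℝ (Fin n)) (η : ℝ), ‖x‖ ≤ η → bvol n (s - η / 2) ≤ ac s x)

/-- H5b: continuity. -/
def RowH5b : Prop := ∀ (n : ℕ), 0 < n → ∀ s : ℝ, 0 < s →
  Continuous (fun x : EuclideanSpace ℝ (Fin n) => ac s x)

/-- H5c: products are positive definite, with known integral. -/
def RowH5c : Prop := ∀ (n : ℕ), 0 < n → ∀ s : ℝ, 0 < s → ∀ k : ℕ,
  PD (acp s : (Fin k → EuclideanSpace ℝ (Fin n)) → ℝ) ∧
  Integrable (acp s : (Fin k → EuclideanSpace ℝ (Fin n)) → ℝ) ∧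
  ∫ X : Fin k → EuclideanSpace ℝ (Fin n), acp s X = bvol n s ^ (2 * k)

/-- H6: the explicit admissible functions. -/
def RowH6 : Prop := ∀ (k n : ℕ), 0 < k → 0 < n → ∀ (R η : ℝ), 2 * n ≤ R → 0 < η → η < 1 →
  ∀ T : Finset (Matrix (Fin n) (Fin n) ℝ), (∀ B ∈ T, Good B) →
    (∀ B : Matrix (Fin n) (Fin n) ℝ, Good B → ∃ B' ∈ T, ∀ w : Fin n → ℤ, ‖lat B w‖ < R →
      ∃ w' : Fin n → ℤ, ‖lat B w - lat B' w'‖ ≤ η) →
  ∃ F : (Fin k → EuclideanSpace ℝ (Fin n)) → ℝ, Adm k n F 1 ∧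
    F 0 ≤ (1 + 2 * T.card) * ((1 - η)⁻¹ ^ n * (1 + (2 * η + 4) / R) ^ (2 * n) *
      gamma n ^ ((n : ℝ) / 2)) ^ k * ∫ X, F X

/-- H7: the final inequality. -/
def RowH7 : Prop := ∃ C : ℝ, ∀ (k n : ℕ), 0 < k → 0 < n →
  lp k n ≤ gamma n * Real.exp (C * (n ^ 2 * Real.log (n + k) / k))

end Pool.Agent.Lib.LPH
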