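import Pool.Agent.Lib.LPH.Defs
import Pool.Agent.Lib.KL.LP

/-!
MP_ef2672, project LPH: row H1, the bound for one lattice (helper84).
-/

set_option autoImplicit false

namespace Pool.Agent.Lib.LPH

open MeasureTheory Filter Topology
open Pool.Agent.KL.LPaux

namespace H1aux

lemma PD.sum_nonneg {V : Type*} [AddCommGroup V] {F : V → ℝ} (hF : PD F) {β : Type*}
    (X : Finset β) (x : β → V) (c : β → ℝ) :
    0 ≤ ∑ i ∈ X, ∑ j ∈ X, c i * c j * F (x i - x j) := by
  have h := hF.2 X.card (fun i => x (X.equivFin.symm i)) (fun i => c (X.equivFin.symm i))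
  have h1 : ∀ φ : β → ℝ, ∑ i : Fin X.card, φ (X.equivFin.symm i) = ∑ i ∈ X, φ i := fun φ => by
    rw [← Finset.sum_coe_sort X]
    exact Equiv.sum_comp X.equivFin.symm (fun i : X => φ i)
  have h2 : ∀ i : Fin X.card, (∑ j : Fin X.card, c (X.equivFin.symm i) * c (X.equivFin.symm j) *
      F (x (X.equivFin.symm i) - x (X.equivFin.symm j))) =
      ∑ j ∈ X, c (X.equivFin.symm i) * c j * F (x (X.equivFin.symm i) - x j) := fun i =>
    h1 (fun j => c (X.equivFin.symm i) * c j * F (x (X.equivFin.symm i) - x j))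
  rw [Finset.sum_congr rfl fun i _ => h2 i] at h
  rwa [h1 (fun i => ∑ j ∈ X, c i * c j * F (x i - x j))] at h

variable {N : ℕ}

lemma box_sum_le {g : (Fin N → ℝ) → ℝ} (hpd : PD g) (B : Finset (Fin N → ℤ)) (z : Fin N → ℝ) :
    ∑ x ∈ B, ∑ y ∈ B, g (z + ι (x - y)) ≤ ∑ x ∈ B, ∑ y ∈ B, g (ι (x - y)) := by
  have h := PD.sum_nonneg hpd (Finset.univ ×ˢ B)
    (fun p : Bool × (Fin N → ℤ) => (if p.1 then z else 0) + ι p.2)
    (fun p => if p.1 then 1 else -1)
  simp only [Finset.sum_product, Fintype.sum_bool, if_true, Bool.false_eq_true, if_false,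
    zero_add] at h
  have e1 : ∀ x y : Fin N → ℤ, z + ι x - (z + ι y) = ι (x - y) := fun x y => by
    rw [ι_sub]; abel
  have e2 : ∀ x y : Fin N → ℤ, z + ι x - ι y = z + ι (x - y) := fun x y => by
    rw [ι_sub]; abel
  have e3 : ∀ x y : Fin N → ℤ, ι x - (z + ι y) = -(z + ι (y - x)) := fun x y => by
    rw [ι_sub]; abel
  have e4 : ∀ x y : Fin N → ℤ, ι x - ι y = ι (x - y) := fun x y => by
    rw [ι_sub]
  simp only [e1, e2, e3, e4, hpd.1] at h
  simp only [Finset.sum_add_distrib, one_mul, mul_one, neg_mul, mul_neg, neg_neg,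
    Finset.sum_neg_distrib] at h
  have h5 : ∑ x ∈ B, ∑ y ∈ B, g (z + ι (y - x)) = ∑ x ∈ B, ∑ y ∈ B, g (z + ι (x - y)) :=
    Finset.sum_comm
  rw [h5] at h
  linarith

lemma integral_le_of_pd {g : (Fin N → ℝ) → ℝ} (hI : Integrable g) (hpd : PD g)
    (hneg : ∀ w : Fin N → ℤ, w ≠ 0 → g (ι w) ≤ 0) : ∫ z, g z ≤ g 0 := by
  have hsum := hasSum_T hI
  have hlim := tendsto_avg (fun w : Fin N → ℤ => T g (ι w)) hsum.summable
  rw [hsum.tsum_eq] at hlim
  refine le_of_tendsto hlim ?_
  filter_upwards [eventually_gt_atTop 0] with m hm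
  rw [div_le_iff₀ (by positivity)]
  have hint : ∀ c : Fin N → ℝ, Integrable (fun z => g (z + c)) (volume.restrict (Q N)) :=
    fun c => (hI.comp_add_right c).integrableOn
  have h1 : ∑ x ∈ box N m, ∑ y ∈ box N m, T g (ι (x - y)) =
      ∫ z in Q N, ∑ x ∈ box N m, ∑ y ∈ box N m, g (z + ι (x - y)) := by
    rw [integral_finsetSum _ fun x _ => integrable_finsetSum _ fun y _ => hint _]
    refine Finset.sum_congr rfl fun x _ => ?_
    rw [integral_finsetSum _ fun y _ => hint _]
    rfl
  have h2 : ∫ z in Q N, ∑ x ∈ box N m, ∑ y ∈ box N m, g (z + ι (x - y)) ≤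
      ∫ _z in Q N, ∑ x ∈ box N m, ∑ y ∈ box N m, g (ι (x - y)) := by
    refine integral_mono (integrable_finsetSum _ fun x _ => integrable_finsetSum _ fun y _ =>
      hint _) (integrable_const _) fun z => box_sum_le hpd _ z
  rw [integral_const] at h2
  simp only [measureReal_def, Measure.restrict_apply_univ, volume_Q, ENNReal.toReal_one,
    one_smul] at h2
  rw [h1]
  refine h2.trans ?_
  have h4 : ∀ x ∈ box N m, ∑ y ∈ box N m, g (ι (x - y)) ≤ g 0 := by
    intro x hx
    rw [← Finset.add_sum_erase _ _ hx]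
    have h5 : ∑ y ∈ (box N m).erase x, g (ι (x - y)) ≤ 0 := by
      refine Finset.sum_nonpos fun y hy => hneg _ ?_
      rw [sub_ne_zero]
      exact (Finset.ne_of_mem_erase hy).symm
    have h6 : ι (x - x) = (0 : Fin N → ℝ) := by
      funext i
      simp [ι]
    rw [h6]
    linarith
  calc ∑ x ∈ box N m, ∑ y ∈ box N m, g (ι (x - y)) ≤ ∑ x ∈ box N m, g 0 :=
        Finset.sum_le_sum h4
    _ = g 0 * (m : ℝ) ^ N := by
        rw [Finset.sum_const, card_box, nsmul_eq_mul]
        push_cast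
        ring

/-! ### Coordinates -/

variable {k n : ℕ}

/-- The coordinates of a tuple with respect to the columns of `A`. -/
noncomputable def coord (A : Matrix (Fin n) (Fin n) ℝ) (z : Fin (k * n) → ℝ) :
    Fin k → EuclideanSpace ℝ (Fin n) :=
  fun i => WithLp.toLp 2 (A.mulVec fun j => z (finProdFinEquiv (i, j)))

/-- `coord` as a linear equivalence. -/
noncomputable def coordE (A : Matrix (Fin n) (Fin n) ℝ) (hA : A.det ≠ 0) :
    (Fin (k * n) → ℝ) ≃ₗ[ℝ] (Fin k → EuclideanSpace ℝ (Fin n)) where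
  toFun := coord A
  map_add' z z' := by
    funext i
    simp only [coord, Pi.add_apply]
    rw [← WithLp.toLp_add, ← Matrix.mulVec_add]
    rfl
  map_smul' c z := by
    funext i
    simp only [coord, Pi.smul_apply, RingHom.id_apply]
    rw [← WithLp.toLp_smul, ← Matrix.mulVec_smul]
    rfl
  invFun X := fun p => (A⁻¹.mulVec (WithLp.ofLp (X (finProdFinEquiv.symm p).1)))
    (finProdFinEquiv.symm p).2
  left_inv z := by
    funext p
    simp only [coord, Matrix.mulVec_mulVec]
    rw [Matrix.nonsing_inv_mul _ (isUnit_iff_ne_zero.2 hA), Matrix.one_mulVec]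
    exact congrArg z (finProdFinEquiv.apply_symm_apply p)
  right_inv X := by
    funext i
    simp only [coord, Equiv.symm_apply_apply]
    have h1 : (fun j => A⁻¹.mulVec (WithLp.ofLp (X i)) j) = A⁻¹.mulVec (WithLp.ofLp (X i)) := rfl
    rw [h1, Matrix.mulVec_mulVec, Matrix.mul_nonsing_inv _ (isUnit_iff_ne_zero.2 hA),
      Matrix.one_mulVec]

lemma coordE_apply (A : Matrix (Fin n) (Fin n) ℝ) (hA : A.det ≠ 0) (z : Fin (k * n) → ℝ) :
    coordE A hA z = coord A z := rfl

lemma volume_cell (A : Matrix (Fin n) (Fin n) ℝ) :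
    volume ((fun y : Fin n → ℝ => (WithLp.toLp 2 (A.mulVec y) : EuclideanSpace ℝ (Fin n))) '' Q n) =
      ENNReal.ofReal |A.det| := by
  have h1 : (fun y : Fin n → ℝ => (WithLp.toLp 2 (A.mulVec y) : EuclideanSpace ℝ (Fin n))) '' Q n =
      (MeasurableEquiv.toLp 2 (Fin n → ℝ)).symm ⁻¹' (Matrix.toLin' A '' Q n) := by
    ext x
    simp only [Set.mem_image, Set.mem_preimage, Matrix.toLin'_apply]
    constructor
    · rintro ⟨y, hy, rfl⟩
      exact ⟨y, hy, rfl⟩
    · rintro ⟨y, hy, h⟩
      refine ⟨y, hy, ?_⟩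
      rw [h]
      rfl
  rw [h1, (EuclideanSpace.volume_preserving_symm_measurableEquiv_toLp (Fin n)).measure_preimage_equiv,
    Measure.addHaar_image_linearMap, LinearMap.det_toLin', volume_Q, mul_one]

lemma map_coord (A : Matrix (Fin n) (Fin n) ℝ) (hA : A.det ≠ 0) :
    Measure.map (coord A : (Fin (k * n) → ℝ) → _) volume =
      ((ENNReal.ofReal |A.det|) ^ k)⁻¹ • volume := by
  set L := (coordE (k := k) A hA).toContinuousLinearEquiv with hL
  have hLc : (L : (Fin (k * n) → ℝ) → _) = coord A := rfl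
  have hH : (Measure.map L volume).IsAddHaarMeasure := L.isAddHaarMeasure_map _
  obtain ⟨c, hc⟩ : ∃ c : ENNReal, Measure.map L volume =
      c • (volume : Measure (Fin k → EuclideanSpace ℝ (Fin n))) :=
    ⟨_, Measure.isAddLeftInvariant_eq_smul (Measure.map L volume)
      (volume : Measure (Fin k → EuclideanSpace ℝ (Fin n)))⟩
  set S : Set (Fin k → EuclideanSpace ℝ (Fin n)) := Set.pi Set.univ fun _ =>
    (fun y : Fin n → ℝ => (WithLp.toLp 2 (A.mulVec y) : EuclideanSpace ℝ (Fin n))) '' Q n with hS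
  have hpre : L ⁻¹' S = Q (k * n) := by
    ext z
    simp only [Set.mem_preimage, hLc, hS, Set.mem_pi, Set.mem_univ, true_implies]
    constructor
    · intro h p _
      obtain ⟨⟨i, j⟩, rfl⟩ := finProdFinEquiv.surjective p
      obtain ⟨y, hy, h1⟩ := h i
      have h2 : A.mulVec y = A.mulVec fun j => z (finProdFinEquiv (i, j)) := by
        have := congrArg WithLp.ofLp h1
        exact this
      have h3 : y = fun j => z (finProdFinEquiv (i, j)) := by
        have h4 := congrArg (A⁻¹.mulVec) h2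
        simpa only [Matrix.mulVec_mulVec, Matrix.nonsing_inv_mul _ (isUnit_iff_ne_zero.2 hA),
          Matrix.one_mulVec] using h4
      have h5 := hy j (Set.mem_univ j)
      rw [h3] at h5
      exact h5
    · intro h i
      exact ⟨fun j => z (finProdFinEquiv (i, j)), fun j _ => h _ (Set.mem_univ _), rfl⟩
  have hemb : MeasurableEmbedding L := L.toHomeomorph.measurableEmbedding
  have h1 : Measure.map L volume S = 1 := by
    rw [hemb.map_apply, hpre, volume_Q]
  have h2 : volume S = (ENNReal.ofReal |A.det|) ^ k := by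
    rw [hS, volume_pi_pi]
    simp only [volume_cell, Finset.prod_const, Finset.card_univ, Fintype.card_fin]
  rw [hLc] at hc h1
  rw [hc, Measure.smul_apply, h2, smul_eq_mul] at h1
  rw [hc]
  congr 1
  exact ENNReal.eq_inv_of_mul_eq_one_left h1

end H1aux

open H1aux

theorem rowH1 : RowH1 := by
  intro k n _ _ A hA F hFc hFi hFpd hneg
  have hm : Measurable (coord A : (Fin (k * n) → ℝ) → Fin k → EuclideanSpace ℝ (Fin n)) :=
    ((coordE (k := k) A hA).toContinuousLinearEquiv).continuous.measurable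
  have hmap := map_coord (k := k) A hA
  have hc0 : ENNReal.ofReal |A.det| ≠ 0 := by
    rw [Ne, ENNReal.ofReal_eq_zero, not_le]
    exact abs_pos.2 hA
  have hI : Integrable F (Measure.map (coord A : (Fin (k * n) → ℝ) → _) volume) := by
    rw [hmap]
    exact hFi.smul_measure (ENNReal.inv_ne_top.2 (pow_ne_zero _ hc0))
  have hI' : Integrable (fun z : Fin (k * n) → ℝ => F (coord A z)) :=
    (integrable_map_measure hI.1 hm.aemeasurable).1 hI
  have hint : ∫ z : Fin (k * n) → ℝ, F (coord A z) = (|A.det| ^ k)⁻¹ * ∫ X, F X := by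
    have h3 := integral_map hm.aemeasurable hI.1
    rw [hmap, integral_smul_measure, ENNReal.toReal_inv, ENNReal.toReal_pow,
      ENNReal.toReal_ofReal (abs_nonneg _), smul_eq_mul] at h3
    exact h3.symm
  have hadd : ∀ z z' : Fin (k * n) → ℝ, coord (k := k) A (z - z') = coord A z - coord A z' :=
    fun z z' => map_sub (coordE (k := k) A hA) z z'
  have hpd : PD (fun z : Fin (k * n) → ℝ => F (coord A z)) := by
    refine ⟨fun z => ?_, fun m x c => ?_⟩
    · have h1 : coord (k := k) A (-z) = -coord A z := map_neg (coordE (k := k) A hA) z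
      simp only [h1, hFpd.1]
    · simp only [hadd]
      exact hFpd.2 m (fun i => coord A (x i)) c
  have h0 : coord (k := k) A 0 = 0 := map_zero (coordE (k := k) A hA)
  have key := integral_le_of_pd hI' hpd (fun w hw => by
    refine hneg (fun i j => w (finProdFinEquiv (i, j))) ?_
    intro h
    apply hw
    funext p
    obtain ⟨⟨i, j⟩, rfl⟩ := finProdFinEquiv.surjective p
    exact congrFun (congrFun h i) j)
  rw [hint, h0] at key
  have hd : 0 < |A.det| ^ k := pow_pos (abs_pos.2 hA) k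
  rwa [inv_mul_le_iff₀ hd] at key

end Pool.Agent.Lib.LPH
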