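import Pool.Agent.Lib.LPH.Defs

/-!
# MP_ef2672_gt, project LPH: row H2, a separated tuple lies in a lattice of minimum at least `1`
-/

set_option autoImplicit false

namespace Pool.Agent.Lib.LPH

open MeasureTheory Filter Topology
open Pool.Agent.Lib.MP_ef2672_gt_Tauber Pool.Agent.Lib.MP_ef2672_gt_Over

/-- the square of the norm of a lattice vector -/
theorem H2_norm_sq {n : ℕ} (A : Matrix (Fin n) (Fin n) ℝ) (w : Fin n → ℤ) :
    ∑ i, (Matrix.mulVec A (fun j => (w j : ℝ))) i ^ 2 = ‖lat A w‖ ^ 2 := by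
  rw [lat, EuclideanSpace.norm_eq, Real.sq_sqrt (Finset.sum_nonneg fun i _ => sq_nonneg _)]
  refine Finset.sum_congr rfl fun i _ => ?_
  rw [Real.norm_eq_abs, sq_abs]

/-- from a lattice of full rank and minimum at least `1` to a matrix -/
theorem H2_matrix {n : ℕ} (hn : 0 < n) (L : Submodule ℤ (EuclideanSpace ℝ (Fin n)))
    (hL : ∀ z ∈ L, z ≠ 0 → 1 ≤ ‖z‖)
    (hspan : Submodule.span ℝ (L : Set (EuclideanSpace ℝ (Fin n))) = ⊤) :
    ∃ A : Matrix (Fin n) (Fin n) ℝ, A.det ≠ 0 ∧ 1 ≤ minSq A ∧ ∀ z ∈ L, ∃ w : Fin n → ℤ,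
      z = lat A w := by
  have hd : DiscreteTopology L := by
    refine DiscreteTopology.of_forall_le_dist (r := 1) one_pos fun x y hxy => ?_
    show 1 ≤ dist x y
    rw [Subtype.dist_eq, dist_eq_norm]
    refine hL _ (L.sub_mem x.2 y.2) fun h => hxy ?_
    exact Subtype.ext (sub_eq_zero.1 h)
  have hz : IsZLattice ℝ L := ⟨hspan⟩
  have hf : Module.Finite ℤ L := ZLattice.module_finite ℝ L
  have hfr : Module.Free ℤ L := ZLattice.module_free ℝ L
  have hr : Module.finrank ℤ L = n := by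
    rw [ZLattice.rank ℝ L, finrank_euclideanSpace_fin]
  let b : Module.Basis (Fin n) ℤ L := (Module.finBasis ℤ L).reindex (finCongr hr)
  let B : Module.Basis (Fin n) ℝ (EuclideanSpace ℝ (Fin n)) := b.ofZLatticeBasis ℝ L
  have hB : ∀ i, B i = (b i : EuclideanSpace ℝ (Fin n)) := fun i => b.ofZLatticeBasis_apply ℝ L i
  let A : Matrix (Fin n) (Fin n) ℝ := Matrix.of fun r j => (B j) r
  have hlat : ∀ w : Fin n → ℤ, lat A w = ∑ j, (w j : ℝ) • B j := by
    intro w
    ext r
    rw [WithLp.ofLp_sum, Finset.sum_apply]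
    show (A.mulVec fun j => (w j : ℝ)) r = _
    rw [Matrix.mulVec, dotProduct]
    refine Finset.sum_congr rfl fun j _ => ?_
    show (B j) r * (w j : ℝ) = (w j : ℝ) * (B j) r
    ring
  have hdet : A.det ≠ 0 := by
    have e1 : A = (EuclideanSpace.basisFun (Fin n) ℝ).toBasis.toMatrix B := by
      ext r j
      rw [Module.Basis.toMatrix_apply]
      show (B j) r = _
      simp
    rw [e1, ← Module.Basis.det_apply]
    exact ((EuclideanSpace.basisFun (Fin n) ℝ).toBasis.isUnit_det B).ne_zero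
  have hmem : ∀ w : Fin n → ℤ, lat A w ∈ L := by
    intro w
    rw [hlat]
    refine Submodule.sum_mem _ fun j _ => ?_
    rw [Int.cast_smul_eq_zsmul, hB]
    exact L.smul_mem _ (b j).2
  refine ⟨A, hdet, ?_, fun z hz' => ?_⟩
  · have : Nonempty {w : Fin n → ℤ // w ≠ 0} :=
      ⟨⟨fun _ => 1, fun h => one_ne_zero (congrFun h ⟨0, hn⟩)⟩⟩
    refine le_ciInf fun w => ?_
    rw [H2_norm_sq]
    have h1 : lat A w.1 ≠ 0 := by
      intro h0
      rw [hlat] at h0
      have h2 := (Fintype.linearIndependent_iff.1 B.linearIndependent) _ h0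
      exact w.2 (funext fun j => by exact_mod_cast h2 j)
    exact one_le_pow₀ (hL _ (hmem w.1) h1)
  · refine ⟨fun j => b.repr ⟨z, hz'⟩ j, ?_⟩
    rw [hlat]
    refine (B.sum_repr z).symm.trans (Finset.sum_congr rfl fun j _ => ?_)
    congr 1
    exact b.ofZLatticeBasis_repr_apply ℝ L ⟨z, hz'⟩ j

theorem rowH2 : RowH2 := by
  intro k n hn X hX
  classical
  set W : Submodule ℝ (EuclideanSpace ℝ (Fin n)) := Submodule.span ℝ (Set.range X) with hW
  let e := stdOrthonormalBasis ℝ Wᗮ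
  let Y : Fin (Module.finrank ℝ Wᗮ) → EuclideanSpace ℝ (Fin n) := fun j => (e j : EuclideanSpace ℝ (Fin n))
  let L : Submodule ℤ (EuclideanSpace ℝ (Fin n)) :=
    Submodule.span ℤ (Set.range X) ⊔ Submodule.span ℤ (Set.range Y)
  have hXL : ∀ i, X i ∈ L := fun i =>
    Submodule.mem_sup_left (Submodule.subset_span (Set.mem_range_self i))
  have hL : ∀ z ∈ L, z ≠ 0 → 1 ≤ ‖z‖ := by
    intro z hz hz0
    obtain ⟨x, hx, y, hy, rfl⟩ := Submodule.mem_sup.1 hz
    obtain ⟨a, rfl⟩ := (Submodule.mem_span_range_iff_exists_fun ℤ).1 hx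
    obtain ⟨c, rfl⟩ := (Submodule.mem_span_range_iff_exists_fun ℤ).1 hy
    have ex : ∑ i, a i • X i = ∑ i, (a i : ℝ) • X i :=
      Finset.sum_congr rfl fun i _ => (Int.cast_smul_eq_zsmul ℝ (a i) (X i)).symm
    have ey : ∑ i, c i • Y i = ((∑ i, (c i : ℝ) • e i : Wᗮ) : EuclideanSpace ℝ (Fin n)) := by
      rw [Submodule.coe_sum]
      refine Finset.sum_congr rfl fun i _ => ?_
      rw [Submodule.coe_smul]
      exact (Int.cast_smul_eq_zsmul ℝ (c i) (Y i)).symm
    have hxW : ∑ i, a i • X i ∈ W := by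
      rw [ex]
      exact Submodule.sum_mem _ fun i _ =>
        Submodule.smul_mem _ _ (Submodule.subset_span (Set.mem_range_self i))
    have hyW : ∑ i, c i • Y i ∈ Wᗮ := by
      rw [ey]
      exact Subtype.property _
    have horth : inner ℝ (∑ i, a i • X i) (∑ i, c i • Y i) = (0 : ℝ) :=
      Submodule.inner_right_of_mem_orthogonal hxW hyW
    have hn2 := norm_add_sq_eq_norm_sq_add_norm_sq_real horth
    have hy2 : ‖∑ i, c i • Y i‖ * ‖∑ i, c i • Y i‖ = ∑ i, (c i : ℝ) ^ 2 := by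
      rw [ey, ← Submodule.coe_norm, ← pow_two, ← e.sum_sq_norm_inner_right]
      refine Finset.sum_congr rfl fun i _ => ?_
      rw [e.orthonormal.inner_right_fintype, Real.norm_eq_abs, sq_abs]
    have h1 : 1 ≤ ‖∑ i, a i • X i + ∑ i, c i • Y i‖ * ‖∑ i, a i • X i + ∑ i, c i • Y i‖ := by
      rw [hn2]
      rcases hX a with h | h
      · have hx0 : ∑ i, a i • X i = 0 := by rw [ex, h]
        have hc : ∃ i, c i ≠ 0 := by
          by_contra hc
          push Not at hc
          refine hz0 ?_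
          rw [hx0, zero_add]
          exact Finset.sum_eq_zero fun i _ => by rw [hc i, zero_smul]
        obtain ⟨i, hi⟩ := hc
        rw [hy2]
        have h3 : (1 : ℝ) ≤ (c i : ℝ) ^ 2 := by
          have : (1 : ℤ) ≤ c i ^ 2 := Int.one_le_abs (pow_ne_zero 2 hi) |>.trans_eq (abs_sq _)
          exact_mod_cast this
        have h4 : (c i : ℝ) ^ 2 ≤ ∑ i, (c i : ℝ) ^ 2 :=
          Finset.single_le_sum (f := fun i => (c i : ℝ) ^ 2) (fun j _ => sq_nonneg _)
            (Finset.mem_univ i)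
        nlinarith [mul_self_nonneg ‖∑ i, a i • X i‖]
      · rw [← ex] at h
        nlinarith [mul_self_nonneg ‖∑ i, c i • Y i‖, norm_nonneg (∑ i, a i • X i)]
    nlinarith [norm_nonneg (∑ i, a i • X i + ∑ i, c i • Y i)]
  have hspan : Submodule.span ℝ (L : Set (EuclideanSpace ℝ (Fin n))) = ⊤ := by
    have h1 : W ≤ Submodule.span ℝ (L : Set (EuclideanSpace ℝ (Fin n))) := by
      rw [hW, Submodule.span_le]
      rintro _ ⟨i, rfl⟩
      exact Submodule.subset_span (hXL i)
    have h2 : Wᗮ ≤ Submodule.span ℝ (L : Set (EuclideanSpace ℝ (Fin n))) := by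
      intro z hz
      have h3 := e.sum_repr ⟨z, hz⟩
      have h4 : z = ∑ i, e.repr ⟨z, hz⟩ i • Y i := by
        have := congrArg (Subtype.val) h3
        rw [Submodule.coe_sum] at this
        exact this.symm
      rw [h4]
      refine Submodule.sum_mem _ fun i _ => Submodule.smul_mem _ _ (Submodule.subset_span ?_)
      exact Submodule.mem_sup_right (Submodule.subset_span (Set.mem_range_self i))
    rw [eq_top_iff, ← Submodule.sup_orthogonal_of_hasOrthogonalProjection (K := W)]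
    exact sup_le h1 h2
  obtain ⟨A, h1, h2, h3⟩ := H2_matrix hn L hL hspan
  exact ⟨A, h1, h2, fun i => h3 _ (hXL i)⟩

end Pool.Agent.Lib.LPH
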