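import Pool.Agent.Lib.LPH.Defs
import Pool.Agent.Lib.MP_ef2672_gt_Over.Auto

/-!
MP_ef2672, project LPH: row H4, the autocorrelation of a ball over a good lattice (helper84).
-/

set_option autoImplicit false

namespace Pool.Agent.Lib.LPH

open MeasureTheory Filter Topology
open Pool.Agent.Lib.MP_ef2672_gt_Tauber Pool.Agent.Lib.MP_ef2672_gt_Over
open Pool.Agent.Lib.MP_ef2672_gt_Over.Auto Pool.Agent.Lib.EF_h73
open scoped ENNReal

namespace H4aux

lemma volume_cube (n : ℕ) : volume (Auto.cube n) = 1 := by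
  have h : Auto.cube n = Set.pi Set.univ fun _ : Fin n => Set.Ico (0 : ℝ) 1 := by
    ext t
    simp [Auto.cube]
  rw [h, volume_pi_pi]
  simp

lemma volume_ball_eq (n : ℕ) {s : ℝ} (hs : 0 < s) :
    volume (Metric.ball (0 : EuclideanSpace ℝ (Fin n)) s) =
      volume {x : Fin n → ℝ | ∑ i, x i ^ 2 < s ^ 2} := by
  have h1 : {x : Fin n → ℝ | ∑ i, x i ^ 2 < s ^ 2} =
      (@WithLp.toLp 2 (Fin n → ℝ)) ⁻¹' Metric.ball (0 : EuclideanSpace ℝ (Fin n)) s := by
    ext x
    simp only [Set.mem_ofPred_eq, Set.mem_preimage, mem_ball_zero_iff, EuclideanSpace.norm_eq,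
      Real.norm_eq_abs, sq_abs]
    rw [Real.sqrt_lt' hs]
  rw [h1, (PiLp.volume_preserving_toLp (Fin n)).measure_preimage
    measurableSet_ball.nullMeasurableSet]

variable {n : ℕ}

/-- The number of lattice points in a ball is at most the mean number in larger balls. -/
lemma count_le (B : Matrix (Fin n) (Fin n) ℝ) (hB : Good B) {s : ℝ} (hs : 0 < s)
    (W : Finset (Fin n → ℤ)) (x : EuclideanSpace ℝ (Fin n)) :
    ∑ w ∈ W, (Metric.ball (lat B w) s).indicator (1 : EuclideanSpace ℝ (Fin n) → ℝ≥0∞) x ≤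
      ENNReal.ofReal |B.det|⁻¹ * volume (Metric.ball (0 : EuclideanSpace ℝ (Fin n)) (s + 2)) := by
  classical
  obtain ⟨hdet, -, hcov⟩ := hB
  set y : Fin n → ℝ := B⁻¹.mulVec (WithLp.ofLp x) with hy
  have hx : x = WithLp.toLp 2 (B.mulVec y) := by
    rw [hy, Matrix.mulVec_mulVec, Matrix.mul_nonsing_inv _ (isUnit_iff_ne_zero.2 hdet),
      Matrix.one_mulVec]
  have hmem : ∀ w : Fin n → ℤ, x ∈ Metric.ball (lat B w) s ↔ nq B (y - Auto.cast w) < s := by
    intro w
    rw [Metric.mem_ball, dist_eq_norm, nq_eq, hx]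
    unfold lat
    rw [← WithLp.toLp_sub, ← Matrix.mulVec_sub]
    rfl
  have hvol : volume (ell B ((s + 2) ^ 2)) =
      ENNReal.ofReal |B.det|⁻¹ * volume (Metric.ball (0 : EuclideanSpace ℝ (Fin n)) (s + 2)) := by
    rw [volume_ball_eq n (by linarith)]
    exact vol_ellipsoid B hdet _
  rw [← hvol, ← lintegral_mult]
  have key : ∀ t : Fin n → ℝ,
      ∑ w ∈ W, (Metric.ball (lat B w) s).indicator (1 : EuclideanSpace ℝ (Fin n) → ℝ≥0∞) x ≤
        mult B ((s + 2) ^ 2) t := by
    intro t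
    obtain ⟨z, hz⟩ := hcov (t - y)
    have hz' : nq B ((t - y) - Auto.cast z) ≤ 2 := hz
    unfold mult
    rw [← (Equiv.addRight z).tsum_eq]
    refine le_trans (Finset.sum_le_sum fun w _ => ?_) (ENNReal.sum_le_tsum W)
    simp only [Equiv.coe_addRight]
    by_cases h : x ∈ Metric.ball (lat B w) s
    · rw [Set.indicator_of_mem h, Set.indicator_of_mem]
      · simp
      · show qf B (t - Auto.cast (w + z)) < (s + 2) ^ 2
        rw [nq_lt, Real.sqrt_sq (by linarith)]
        have h1 : t - Auto.cast (w + z) = (y - Auto.cast w) + ((t - y) - Auto.cast z) := by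
          ext i
          simp only [Auto.cast, Pi.sub_apply, Pi.add_apply, Int.cast_add]
          ring
        rw [h1]
        have h2 := nq_add_le B (y - Auto.cast w) ((t - y) - Auto.cast z)
        have h3 := (hmem w).1 h
        linarith
    · rw [Set.indicator_of_notMem h]
      exact zero_le
  calc ∑ w ∈ W, (Metric.ball (lat B w) s).indicator (1 : EuclideanSpace ℝ (Fin n) → ℝ≥0∞) x
      = ∫⁻ _t in Auto.cube n, ∑ w ∈ W,
          (Metric.ball (lat B w) s).indicator (1 : EuclideanSpace ℝ (Fin n) → ℝ≥0∞) x := by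
        rw [setLIntegral_const, volume_cube, mul_one]
    _ ≤ ∫⁻ t in Auto.cube n, mult B ((s + 2) ^ 2) t := lintegral_mono fun t => key t

lemma sum_vol_le (B : Matrix (Fin n) (Fin n) ℝ) (hB : Good B) {s : ℝ} (hs : 0 < s)
    (W : Finset (Fin n → ℤ)) :
    ∑ w ∈ W, volume (Metric.ball (0 : EuclideanSpace ℝ (Fin n)) s ∩ Metric.ball (lat B w) s) ≤
      ENNReal.ofReal |B.det|⁻¹ * volume (Metric.ball (0 : EuclideanSpace ℝ (Fin n)) (s + 2)) *
        volume (Metric.ball (0 : EuclideanSpace ℝ (Fin n)) s) := by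
  have h1 : ∀ w : Fin n → ℤ,
      volume (Metric.ball (0 : EuclideanSpace ℝ (Fin n)) s ∩ Metric.ball (lat B w) s) =
        ∫⁻ x in Metric.ball (0 : EuclideanSpace ℝ (Fin n)) s,
          (Metric.ball (lat B w) s).indicator (1 : EuclideanSpace ℝ (Fin n) → ℝ≥0∞) x := by
    intro w
    rw [lintegral_indicator_one measurableSet_ball, Measure.restrict_apply measurableSet_ball,
      Set.inter_comm]
  rw [Finset.sum_congr rfl fun w _ => h1 w, ← lintegral_finsetSum]
  · calc ∫⁻ x in Metric.ball (0 : EuclideanSpace ℝ (Fin n)) s, ∑ w ∈ W,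
          (Metric.ball (lat B w) s).indicator (1 : EuclideanSpace ℝ (Fin n) → ℝ≥0∞) x
        ≤ ∫⁻ _x in Metric.ball (0 : EuclideanSpace ℝ (Fin n)) s,
          ENNReal.ofReal |B.det|⁻¹ *
            volume (Metric.ball (0 : EuclideanSpace ℝ (Fin n)) (s + 2)) :=
          lintegral_mono fun x => count_le B hB hs W x
      _ = _ := by rw [setLIntegral_const]
  · intro w _
    exact measurable_one.indicator measurableSet_ball

end H4aux

open H4aux

theorem rowH4 : RowH4 := by
  intro n hn B hB s hs W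
  have hsum := sum_vol_le B hB hs W
  obtain ⟨hdet, hmin, -⟩ := hB
  have hD : 0 < |B.det| := abs_pos.2 hdet
  have hfin : ∀ (c : EuclideanSpace ℝ (Fin n)) (r : ℝ), volume (Metric.ball c r) ≠ ⊤ :=
    fun c r => measure_ball_lt_top.ne
  have h1 : ∑ w ∈ W, ac s (lat B w) ≤ |B.det|⁻¹ * bvol n (s + 2) * bvol n s := by
    unfold ac bvol
    rw [← ENNReal.toReal_sum fun w _ =>
      ((measure_mono Set.inter_subset_left).trans_lt measure_ball_lt_top).ne]
    have h2 := ENNReal.toReal_mono (ENNReal.mul_ne_top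
      (ENNReal.mul_ne_top ENNReal.ofReal_ne_top (hfin 0 (s + 2))) (hfin 0 s)) hsum
    rwa [ENNReal.toReal_mul, ENNReal.toReal_mul,
      ENNReal.toReal_ofReal (inv_nonneg.2 hD.le)] at h2
  have h2 : bvol n s ≤ bvol n (s + 2) :=
    ENNReal.toReal_mono (hfin 0 (s + 2)) (measure_mono (Metric.ball_subset_ball (by linarith)))
  have h3 : 0 ≤ bvol n (s + 2) := ENNReal.toReal_nonneg
  have hg : 0 < gamma n := by
    have h4 := inv_le_gamma hn B hdet
    unfold inv at h4
    have h5 : 0 < minSq B := lt_of_lt_of_le one_pos hmin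
    exact lt_of_lt_of_le (by positivity) h4
  have h4 : |B.det|⁻¹ ≤ gamma n ^ ((n : ℝ) / 2) := by
    have h5 := det_ge hn B hdet one_pos hmin
    rw [one_div, Real.inv_rpow hg.le] at h5
    rw [inv_le_comm₀ hD (Real.rpow_pos_of_pos hg _)]
    exact h5
  have h5 : 0 ≤ gamma n ^ ((n : ℝ) / 2) := (Real.rpow_pos_of_pos hg _).le
  calc ∑ w ∈ W, ac s (lat B w) ≤ |B.det|⁻¹ * bvol n (s + 2) * bvol n s := h1
    _ ≤ gamma n ^ ((n : ℝ) / 2) * bvol n (s + 2) * bvol n (s + 2) := by
        refine mul_le_mul (mul_le_mul_of_nonneg_right h4 h3) h2 ENNReal.toReal_nonneg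
          (mul_nonneg h5 h3)
    _ = bvol n (s + 2) ^ 2 * gamma n ^ ((n : ℝ) / 2) := by ring

end Pool.Agent.Lib.LPH
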