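import Pool.Agent.Lib.LPH.Defs

/-!
# MP_ef2672_gt, project LPH: rows H5a, H5b (autocorrelations of balls)
-/

set_option autoImplicit false

namespace Pool.Agent.Lib.LPH

open MeasureTheory Filter Topology
open Pool.Agent.Lib.MP_ef2672_gt_Tauber Pool.Agent.Lib.MP_ef2672_gt_Over

theorem rowH5a : RowH5a := by
  intro n hn s hs
  refine ⟨fun x hx => ?_, fun x => ENNReal.toReal_nonneg, ?_, fun x y η h => ?_, fun x η h => ?_⟩
  · have : Metric.ball (0 : EuclideanSpace ℝ (Fin n)) s ∩ Metric.ball x s = ∅ := by
      refine Set.eq_empty_of_forall_notMem fun z hz => ?_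
      have h1 : dist z 0 < s := hz.1
      have h2 : dist z x < s := hz.2
      have h3 : dist x 0 ≤ dist x z + dist z 0 := dist_triangle _ _ _
      rw [dist_zero_right, dist_comm x z] at h3
      linarith
    rw [ac, this, measure_empty, ENNReal.toReal_zero]
  · rw [ac, Set.inter_self, bvol]
  · have hη : 0 ≤ η := (norm_nonneg _).trans h
    refine ENNReal.toReal_mono ?_ (measure_mono (Set.inter_subset_inter ?_ ?_))
    · exact ((measure_mono Set.inter_subset_left).trans_lt measure_ball_lt_top).ne
    · exact Metric.ball_subset_ball (by linarith)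
    · refine Metric.ball_subset_ball' ?_
      rw [dist_eq_norm]
      linarith
  · rw [bvol, ac, ← Measure.addHaar_ball_center volume ((1 / 2 : ℝ) • x) (s - η / 2)]
    refine ENNReal.toReal_mono ?_ (measure_mono (Set.subset_inter ?_ ?_))
    · exact ((measure_mono Set.inter_subset_left).trans_lt measure_ball_lt_top).ne
    · refine Metric.ball_subset_ball' ?_
      rw [dist_zero_right, norm_smul]
      norm_num
      linarith
    · refine Metric.ball_subset_ball' ?_
      have e1 : (1 / 2 : ℝ) • x - x = (-(1 / 2) : ℝ) • x := by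
        rw [neg_smul]
        have : x = (1 / 2 : ℝ) • x + (1 / 2 : ℝ) • x := by rw [← add_smul]; norm_num
        nth_rewrite 2 [this]
        abel
      rw [dist_eq_norm, e1, norm_smul]
      norm_num
      linarith

theorem rowH5b : RowH5b := by
  intro n hn s hs
  have key : (fun x : EuclideanSpace ℝ (Fin n) => ac s x) = fun x => ∫ z,
      (Metric.ball (0 : EuclideanSpace ℝ (Fin n)) s ∩ Metric.ball x s).indicator
        (fun _ => (1 : ℝ)) z := by
    funext x
    rw [integral_indicator_const (1 : ℝ) (Metric.isOpen_ball.inter Metric.isOpen_ball).measurableSet,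
      smul_eq_mul, mul_one, ac, Measure.real]
  rw [key, continuous_iff_continuousAt]
  intro x₀
  refine continuousAt_of_dominated
    (bound := (Metric.ball (0 : EuclideanSpace ℝ (Fin n)) s).indicator (fun _ => (1 : ℝ))) ?_ ?_ ?_ ?_
  · refine Eventually.of_forall fun x => ?_
    exact (measurable_const.indicator
      (Metric.isOpen_ball.inter Metric.isOpen_ball).measurableSet).aestronglyMeasurable
  · refine Eventually.of_forall fun x => Eventually.of_forall fun z => ?_
    by_cases hz : z ∈ Metric.ball (0 : EuclideanSpace ℝ (Fin n)) s ∩ Metric.ball x s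
    · rw [Set.indicator_of_mem hz, Set.indicator_of_mem hz.1]
      simp
    · rw [Set.indicator_of_notMem hz, norm_zero]
      exact Set.indicator_nonneg (fun _ _ => zero_le_one) _
  · refine (integrable_indicator_iff Metric.isOpen_ball.measurableSet).2 ?_
    exact integrableOn_const (hs := measure_ball_lt_top.ne)
  · have h0 : volume (Metric.sphere x₀ s) = 0 := by
      have : Nontrivial (EuclideanSpace ℝ (Fin n)) := by
        have : Nonempty (Fin n) := ⟨⟨0, hn⟩⟩
        infer_instance
      exact Measure.addHaar_sphere_of_ne_zero volume x₀ hs.ne'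
    have h1 : ∀ᵐ z, z ∉ Metric.sphere x₀ s := measure_eq_zero_iff_ae_notMem.1 h0
    filter_upwards [h1] with z hz
    have hz' : dist z x₀ ≠ s := hz
    have hc : Continuous fun x : EuclideanSpace ℝ (Fin n) => dist z x := continuous_const.dist continuous_id
    rcases lt_or_gt_of_ne hz' with h | h
    · have hev : ∀ᶠ x in 𝓝 x₀, dist z x < s := hc.continuousAt.eventually (gt_mem_nhds h)
      by_cases hz0 : z ∈ Metric.ball (0 : EuclideanSpace ℝ (Fin n)) s
      · refine (continuousAt_const (y := (1 : ℝ))).congr ?_
        filter_upwards [hev] with x hx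
        have hm : z ∈ Metric.ball (0 : EuclideanSpace ℝ (Fin n)) s ∩ Metric.ball x s := ⟨hz0, hx⟩
        show (1 : ℝ) = _
        rw [Set.indicator_of_mem hm]
      · refine (continuousAt_const (y := (0 : ℝ))).congr ?_
        filter_upwards with x
        have hm : z ∉ Metric.ball (0 : EuclideanSpace ℝ (Fin n)) s ∩ Metric.ball x s :=
          fun h => hz0 h.1
        show (0 : ℝ) = _
        rw [Set.indicator_of_notMem hm]
    · have hev : ∀ᶠ x in 𝓝 x₀, s < dist z x := hc.continuousAt.eventually (lt_mem_nhds h)
      refine (continuousAt_const (y := (0 : ℝ))).congr ?_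
      filter_upwards [hev] with x hx
      have hm : z ∉ Metric.ball (0 : EuclideanSpace ℝ (Fin n)) s ∩ Metric.ball x s :=
        fun h => lt_asymm hx h.2
      show (0 : ℝ) = _
      rw [Set.indicator_of_notMem hm]

end Pool.Agent.Lib.LPH
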