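import Pool.Agent.Lib.LPH.Defs

/-!
MP_ef2672, project LPH, row H5c: products of autocorrelations of balls are positive definite,
integrable, with known integral.
-/

set_option autoImplicit false

namespace Pool.Agent.Lib.LPH

open MeasureTheory Filter Topology
open Pool.Agent.Lib.MP_ef2672_gt_Tauber Pool.Agent.Lib.MP_ef2672_gt_Over

namespace H5c

/-- The indicator function of the ball. -/
noncomputable def bi {n : ℕ} (s : ℝ) (x : EuclideanSpace ℝ (Fin n)) : ℝ :=
  (Metric.ball (0 : EuclideanSpace ℝ (Fin n)) s).indicator (1 : EuclideanSpace ℝ (Fin n) → ℝ) x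

lemma bi_neg {n : ℕ} (s : ℝ) (x : EuclideanSpace ℝ (Fin n)) : bi s (-x) = bi s x := by
  unfold bi
  by_cases h : x ∈ Metric.ball (0 : EuclideanSpace ℝ (Fin n)) s
  · have h' : -x ∈ Metric.ball (0 : EuclideanSpace ℝ (Fin n)) s := by
      simpa using h
    rw [Set.indicator_of_mem h, Set.indicator_of_mem h']
    rfl
  · have h' : -x ∉ Metric.ball (0 : EuclideanSpace ℝ (Fin n)) s := by
      simpa using h
    rw [Set.indicator_of_notMem h, Set.indicator_of_notMem h']

lemma bi_integrable {n : ℕ} (s : ℝ) :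
    Integrable (bi s : EuclideanSpace ℝ (Fin n) → ℝ) := by
  have : (bi s : EuclideanSpace ℝ (Fin n) → ℝ) =
      (Metric.ball (0 : EuclideanSpace ℝ (Fin n)) s).indicator (fun _ => (1 : ℝ)) := by
    funext x
    rfl
  rw [this]
  refine (integrableOn_const (C := (1 : ℝ)) ?_).integrable_indicator measurableSet_ball
  exact measure_ball_lt_top.ne

lemma bi_integral {n : ℕ} (s : ℝ) :
    ∫ x : EuclideanSpace ℝ (Fin n), bi s x = bvol n s := by
  unfold bi bvol
  rw [integral_indicator_one measurableSet_ball]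
  rfl

lemma bi_mul {n : ℕ} (s : ℝ) (z u : EuclideanSpace ℝ (Fin n)) :
    bi s u * bi s (u - z) =
      (Metric.ball (0 : EuclideanSpace ℝ (Fin n)) s ∩ Metric.ball z s).indicator
        (1 : EuclideanSpace ℝ (Fin n) → ℝ) u := by
  unfold bi
  by_cases h1 : u ∈ Metric.ball (0 : EuclideanSpace ℝ (Fin n)) s
  · by_cases h2 : u ∈ Metric.ball z s
    · have h3 : u - z ∈ Metric.ball (0 : EuclideanSpace ℝ (Fin n)) s := by
        rw [mem_ball_zero_iff]
        rwa [Metric.mem_ball, dist_eq_norm] at h2
      have h4 : u ∈ Metric.ball (0 : EuclideanSpace ℝ (Fin n)) s ∩ Metric.ball z s := ⟨h1, h2⟩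
      rw [Set.indicator_of_mem h1, Set.indicator_of_mem h3, Set.indicator_of_mem h4]
      simp
    · have h3 : u - z ∉ Metric.ball (0 : EuclideanSpace ℝ (Fin n)) s := by
        rw [mem_ball_zero_iff]
        rwa [Metric.mem_ball, dist_eq_norm] at h2
      have h4 : u ∉ Metric.ball (0 : EuclideanSpace ℝ (Fin n)) s ∩ Metric.ball z s :=
        fun h => h2 h.2
      rw [Set.indicator_of_notMem h3, Set.indicator_of_notMem h4]
      simp
  · have h4 : u ∉ Metric.ball (0 : EuclideanSpace ℝ (Fin n)) s ∩ Metric.ball z s :=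
      fun h => h1 h.1
    rw [Set.indicator_of_notMem h1, Set.indicator_of_notMem h4]
    simp

lemma ac_eq {n : ℕ} (s : ℝ) (z : EuclideanSpace ℝ (Fin n)) :
    ac s z = ∫ u : EuclideanSpace ℝ (Fin n), bi s u * bi s (u - z) := by
  simp_rw [bi_mul]
  rw [integral_indicator_one (measurableSet_ball.inter measurableSet_ball)]
  rfl

lemma ac_sub {n : ℕ} (s : ℝ) (x y : EuclideanSpace ℝ (Fin n)) :
    ac s (x - y) = ∫ v : EuclideanSpace ℝ (Fin n), bi s (v + x) * bi s (v + y) := by
  rw [ac_eq, ← integral_add_right_eq_self (μ := (volume : Measure (EuclideanSpace ℝ (Fin n))))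
    (fun u => bi s u * bi s (u - (x - y))) x]
  refine integral_congr_ae (Eventually.of_forall fun v => ?_)
  simp only
  rw [show v + x - (x - y) = v + y by abel]

lemma ac_neg {n : ℕ} (s : ℝ) (x : EuclideanSpace ℝ (Fin n)) : ac s (-x) = ac s x := by
  have h1 := ac_sub s (0 : EuclideanSpace ℝ (Fin n)) x
  have h2 := ac_sub s x (0 : EuclideanSpace ℝ (Fin n))
  rw [zero_sub] at h1
  rw [sub_zero] at h2
  rw [h1, h2]
  refine integral_congr_ae (Eventually.of_forall fun v => ?_)
  simp only
  ring

lemma ac_conv {n : ℕ} (s : ℝ) :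
    (ac s : EuclideanSpace ℝ (Fin n) → ℝ) =
      convolution (bi s) (bi s) (ContinuousLinearMap.mul ℝ ℝ) volume := by
  funext z
  rw [ac_eq, convolution_def]
  refine integral_congr_ae (Eventually.of_forall fun v => ?_)
  simp only [ContinuousLinearMap.mul_apply']
  rw [← bi_neg s (z - v), neg_sub]

lemma ac_integrable {n : ℕ} (s : ℝ) :
    Integrable (ac s : EuclideanSpace ℝ (Fin n) → ℝ) := by
  rw [ac_conv]
  exact (bi_integrable s).integrable_convolution _ (bi_integrable s)

lemma ac_integral {n : ℕ} (s : ℝ) :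
    ∫ x : EuclideanSpace ℝ (Fin n), ac s x = bvol n s ^ 2 := by
  have : ∫ x : EuclideanSpace ℝ (Fin n), ac s x =
      ∫ x, convolution (bi s) (bi s) (ContinuousLinearMap.mul ℝ ℝ)
        (volume : Measure (EuclideanSpace ℝ (Fin n))) x := by
    rw [ac_conv]
  rw [this, integral_convolution _ (bi_integrable s) (bi_integrable s)]
  simp only [ContinuousLinearMap.mul_apply']
  rw [bi_integral]
  ring

/-- The translated product. -/
noncomputable def pr {k n : ℕ} (s : ℝ) (X V : Fin k → EuclideanSpace ℝ (Fin n)) : ℝ :=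
  ∏ l, bi s (V l + X l)

lemma bb_integrable {n : ℕ} (s : ℝ) (x y : EuclideanSpace ℝ (Fin n)) :
    Integrable (fun v : EuclideanSpace ℝ (Fin n) => bi s (v + x) * bi s (v + y)) := by
  have h0 : Integrable (fun u : EuclideanSpace ℝ (Fin n) => bi s u * bi s (u - (x - y))) := by
    have : (fun u : EuclideanSpace ℝ (Fin n) => bi s u * bi s (u - (x - y))) =
        (Metric.ball (0 : EuclideanSpace ℝ (Fin n)) s ∩ Metric.ball (x - y) s).indicator
          (fun _ => (1 : ℝ)) := by
      funext u
      exact bi_mul s (x - y) u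
    rw [this]
    refine (integrableOn_const (C := (1 : ℝ)) ?_).integrable_indicator
      (measurableSet_ball.inter measurableSet_ball)
    exact (lt_of_le_of_lt (measure_mono Set.inter_subset_left) measure_ball_lt_top).ne
  have h1 := h0.comp_add_right x
  refine h1.congr (Eventually.of_forall fun v => ?_)
  simp only
  rw [show v + x - (x - y) = v + y by abel]

lemma pp_integrable {k n : ℕ} (s : ℝ) (X Y : Fin k → EuclideanSpace ℝ (Fin n)) :
    Integrable (fun V : Fin k → EuclideanSpace ℝ (Fin n) => pr s X V * pr s Y V) := by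
  have h := Integrable.fintype_prod (ι := Fin k) (𝕜 := ℝ)
    (f := fun l (v : EuclideanSpace ℝ (Fin n)) => bi s (v + X l) * bi s (v + Y l))
    (μ := fun _ => volume) (fun l => bb_integrable s (X l) (Y l))
  refine h.congr (Eventually.of_forall fun V => ?_)
  simp only [pr, Finset.prod_mul_distrib]

lemma acp_sub {k n : ℕ} (s : ℝ) (X Y : Fin k → EuclideanSpace ℝ (Fin n)) :
    acp s (X - Y) = ∫ V : Fin k → EuclideanSpace ℝ (Fin n), pr s X V * pr s Y V := by
  have h := integral_fintype_prod_volume_eq_prod (ι := Fin k) (𝕜 := ℝ)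
    (f := fun l (v : EuclideanSpace ℝ (Fin n)) => bi s (v + X l) * bi s (v + Y l))
  have h1 : acp s (X - Y) = ∏ l, ∫ v : EuclideanSpace ℝ (Fin n),
      bi s (v + X l) * bi s (v + Y l) := by
    unfold acp
    refine Finset.prod_congr rfl fun l _ => ?_
    rw [Pi.sub_apply, ac_sub]
  rw [h1, ← h]
  refine integral_congr_ae (Eventually.of_forall fun V => ?_)
  simp only [pr, Finset.prod_mul_distrib]

lemma acp_pd {k n : ℕ} (s : ℝ) :
    PD (acp s : (Fin k → EuclideanSpace ℝ (Fin n)) → ℝ) := by
  refine ⟨fun X => ?_, fun m x c => ?_⟩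
  · unfold acp
    refine Finset.prod_congr rfl fun l _ => ?_
    rw [Pi.neg_apply, ac_neg]
  · have h : ∑ i, ∑ j, c i * c j * acp s (x i - x j) =
        ∫ V : Fin k → EuclideanSpace ℝ (Fin n), (∑ i, c i * pr s (x i) V) ^ 2 := by
      have h1 : ∀ V : Fin k → EuclideanSpace ℝ (Fin n), (∑ i, c i * pr s (x i) V) ^ 2 =
          ∑ i, ∑ j, c i * c j * (pr s (x i) V * pr s (x j) V) := by
        intro V
        rw [sq, Finset.sum_mul_sum]
        refine Finset.sum_congr rfl fun i _ => Finset.sum_congr rfl fun j _ => ?_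
        ring
      simp_rw [h1]
      rw [integral_finsetSum]
      · refine Finset.sum_congr rfl fun i _ => ?_
        rw [integral_finsetSum]
        · refine Finset.sum_congr rfl fun j _ => ?_
          rw [integral_const_mul, acp_sub]
        · intro j _
          exact (pp_integrable s (x i) (x j)).const_mul _
      · intro i _
        refine integrable_finsetSum _ fun j _ => ?_
        exact (pp_integrable s (x i) (x j)).const_mul _
    rw [h]
    exact integral_nonneg fun V => sq_nonneg _

end H5c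

open H5c in
theorem rowH5c : RowH5c := by
  intro n _ s _ k
  refine ⟨acp_pd s, ?_, ?_⟩
  · have h := Integrable.fintype_prod (ι := Fin k) (𝕜 := ℝ)
      (f := fun _ (v : EuclideanSpace ℝ (Fin n)) => ac s v)
      (μ := fun _ => volume) (fun _ => ac_integrable s)
    exact h
  · have h := integral_fintype_prod_volume_eq_pow (ι := Fin k) (𝕜 := ℝ)
      (ac s : EuclideanSpace ℝ (Fin n) → ℝ)
    rw [ac_integral] at h
    unfold acp
    rw [h, Fintype.card_fin, ← pow_mul]

end Pool.Agent.Lib.LPH
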