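import Pool.Agent.Lib.LPH.Numbers
import Pool.Agent.Lib.LPH.Codes
import Pool.Agent.Lib.LPH.H1
import Pool.Agent.Lib.LPH.H2
import Pool.Agent.Lib.LPH.H4
import Pool.Agent.Lib.LPH.H5a
import Pool.Agent.Lib.LPH.H5c

/-!
Project LPH: the hierarchy bounds Hermite's constant from above and converges to it.
-/

set_option autoImplicit false

namespace Pool.Agent.Lib.LPH

open MeasureTheory Filter Topology
open Pool.Agent.Lib.MP_ef2672_gt_Tauber Pool.Agent.Lib.MP_ef2672_gt_Over Pool.Agent.Lib.EF_h73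

lemma lat_smul {n : ℕ} (A : Matrix (Fin n) (Fin n) ℝ) (t : ℝ) (w : Fin n → ℤ) :
    lat (t • A) w = t • lat A w := by
  unfold lat
  rw [Matrix.smul_mulVec, WithLp.toLp_smul]

lemma lat_sum {k n : ℕ} (A : Matrix (Fin n) (Fin n) ℝ) (a : Fin k → ℤ)
    (w : Fin k → Fin n → ℤ) :
    ∑ i, (a i : ℝ) • lat A (w i) = lat A (∑ i, a i • w i) := by
  unfold lat
  have h1 : (fun j => (((∑ i, a i • w i) j : ℤ) : ℝ)) =
      ∑ i, (a i : ℝ) • fun j => (w i j : ℝ) := by
    funext j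
    rw [Finset.sum_apply, Finset.sum_apply]
    push_cast
    simp
  rw [h1, Matrix.mulVec_sum, WithLp.toLp_sum]
  refine Finset.sum_congr rfl fun i _ => ?_
  rw [Matrix.mulVec_smul, WithLp.toLp_smul]

/-- Every admissible pair bounds Hermite's constant. -/
theorem gamma_le_val {k n : ℕ} (hk : 0 < k) (hn : 0 < n)
    {F : (Fin k → EuclideanSpace ℝ (Fin n)) → ℝ} {r : ℝ} (h : Adm k n F r) :
    gamma n ≤ val k n F r := by
  have hval := val_nonneg h
  obtain ⟨hr, hFc, hFi, hpd, hint, hneg⟩ := h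
  have hF0 := hpd.zero_nonneg
  have hn0 : (0 : ℝ) < n := by exact_mod_cast hn
  have hk0 : (0 : ℝ) < k := by exact_mod_cast hk
  have : Nonempty {A : Matrix (Fin n) (Fin n) ℝ // A.det ≠ 0} := ⟨⟨1, by simp⟩⟩
  refine ciSup_le fun A => ?_
  obtain ⟨A, hA⟩ := A
  rcases lt_or_ge 0 (minSq A) with hm | hm
  swap
  · exact (div_nonpos_of_nonpos_of_nonneg hm (Real.rpow_nonneg (abs_nonneg _) _)).trans hval
  set t : ℝ := r / Real.sqrt (minSq A) with ht
  have hsq : 0 < Real.sqrt (minSq A) := Real.sqrt_pos.2 hm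
  have ht0 : 0 < t := div_pos hr hsq
  have hdet : (t • A).det = t ^ n * A.det := by
    rw [Matrix.det_smul, Fintype.card_fin]
  have hA' : (t • A).det ≠ 0 := by
    rw [hdet]
    exact mul_ne_zero (pow_ne_zero _ ht0.ne') hA
  have hlong : ∀ w : Fin n → ℤ, w ≠ 0 → r ≤ ‖lat (t • A) w‖ := by
    intro w hw
    rw [lat_smul, norm_smul, Real.norm_eq_abs, abs_of_pos ht0]
    have h1 : Real.sqrt (minSq A) ≤ ‖lat A w‖ := by
      refine Real.sqrt_le_iff.2 ⟨norm_nonneg _, ?_⟩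
      rw [norm_lat_sq]
      exact minSq_le A w hw
    calc r = t * Real.sqrt (minSq A) := by
          rw [ht]
          field_simp
      _ ≤ t * ‖lat A w‖ := mul_le_mul_of_nonneg_left h1 ht0.le
  have h1 := rowH1 k n hk hn (t • A) hA' F hFc hFi hpd (by
    intro w hw
    refine hneg _ ?_ ?_
    · intro h0
      apply hw
      funext i
      by_contra hi
      have h2 := hlong (w i) hi
      have h3 : lat (t • A) (w i) = 0 := congrFun h0 i
      rw [h3, norm_zero] at h2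
      linarith
    · intro a
      rw [lat_sum]
      by_cases h0 : ∑ i, a i • w i = 0
      · left
        rw [h0, lat_zero]
      · right
        exact hlong _ h0)
  rw [hdet, abs_mul, abs_of_pos (pow_pos ht0 n)] at h1
  set D : ℝ := t ^ n * |A.det| with hD
  have hD0 : 0 < D := mul_pos (pow_pos ht0 n) (abs_pos.2 hA)
  have h2 : (D ^ k)⁻¹ ≤ F 0 / ∫ X, F X := by
    rw [inv_eq_one_div, div_le_div_iff₀ (by positivity) hint]
    linarith
  have h3 : ((D ^ k)⁻¹) ^ ((2 : ℝ) / (n * k : ℕ)) = (D ^ ((2 : ℝ) / n))⁻¹ := by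
    rw [Real.inv_rpow (by positivity), ← Real.rpow_natCast, ← Real.rpow_mul hD0.le]
    congr 2
    push_cast
    field_simp
  have h4 : D ^ ((2 : ℝ) / n) = t ^ 2 * |A.det| ^ ((2 : ℝ) / n) := by
    rw [hD, Real.mul_rpow (by positivity) (abs_nonneg _)]
    congr 1
    have := pow_root ht0.le hn 1
    rw [one_mul] at this
    simpa using this
  have h5 : inv A = r ^ 2 * (D ^ ((2 : ℝ) / n))⁻¹ := by
    have hdp : 0 < |A.det| ^ ((2 : ℝ) / n) := Real.rpow_pos_of_pos (abs_pos.2 hA) _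
    rw [h4, ht, div_pow, Real.sq_sqrt hm.le]
    unfold inv
    field_simp
  show inv A ≤ val k n F r
  rw [h5, ← h3]
  unfold val
  refine mul_le_mul_of_nonneg_left ?_ (by positivity)
  exact Real.rpow_le_rpow (by positivity) h2 (by positivity)

theorem rowH6 : RowH6 := rowH6_of rowH2 rowH4 rowH5a rowH5b rowH5c

theorem rowH7 : RowH7 := rowH7_of rowH3 rowH6

lemma exists_adm {k n : ℕ} (hk : 0 < k) (hn : 0 < n) :
    ∃ (F : (Fin k → EuclideanSpace ℝ (Fin n)) → ℝ) (r : ℝ), Adm k n F r := by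
  have hn1 : (1 : ℝ) ≤ n := by exact_mod_cast hn
  obtain ⟨T, hT, -, hcode⟩ := rowH3 n hn (2 * n) (1 / 2) (by linarith) (by norm_num) (by norm_num)
  obtain ⟨F, hF, -⟩ := rowH6 k n hk hn (2 * n) (1 / 2) le_rfl (by norm_num) (by norm_num) T hT hcode
  exact ⟨F, 1, hF⟩

theorem gamma_le_lp {k n : ℕ} (hk : 0 < k) (hn : 0 < n) : gamma n ≤ lp k n := by
  obtain ⟨F, r, h⟩ := exists_adm hk hn
  refine le_csInf ⟨_, F, r, h, rfl⟩ ?_
  rintro t ⟨F', r', h', rfl⟩
  exact gamma_le_val hk hn h'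

end Pool.Agent.Lib.LPH
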