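import Pool.Agent.Lib.LPH.Codes

/-!
Project LPH: a better count of the types of good lattices, by the Smith normal form.
-/

set_option autoImplicit false

namespace Pool.Agent.Lib.LPH

open Finset
open Pool.Agent.Lib.MP_ef2672_gt_Tauber Pool.Agent.Lib.MP_ef2672_gt_Over Pool.Agent.Lib.EF_h73

namespace Codes

variable {n : ℕ}

lemma finrank_rows {N : Matrix (Fin n) (Fin n) ℤ} (hN : N.det ≠ 0) :
    Module.finrank ℤ (Submodule.span ℤ (Set.range fun i => N i)) =
      Module.finrank ℤ (Fin n → ℤ) := by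
  have h : LinearIndependent ℤ fun i => N i := Matrix.linearIndependent_rows_of_det_ne_zero hN
  rw [finrank_span_eq_card h, Fintype.card_fin, Module.finrank_fin_fun]

/-- The rows of `N` span the integer vectors satisfying `n` congruences. -/
lemma smith {N : Matrix (Fin n) (Fin n) ℤ} (hN : N.det ≠ 0) :
    ∃ (a : Fin n → ℕ) (P : Fin n → Fin n → ℤ), (∀ m, 0 < a m) ∧ ∏ m, a m ≤ N.det.natAbs ∧
      ∀ x : Fin n → ℤ, (∃ u : Fin n → ℤ, Matrix.vecMul u N = x) ↔
        ∀ m, (a m : ℤ) ∣ ∑ j, x j * P m j := by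
  classical
  obtain ⟨L, hL⟩ : ∃ L : Submodule ℤ (Fin n → ℤ), L = Submodule.span ℤ (Set.range fun i => N i) :=
    ⟨_, rfl⟩
  obtain ⟨b', a, ab', h⟩ := Submodule.exists_smith_normal_form_of_rank_eq (N := L)
    (Pi.basisFun ℤ (Fin n)) (by rw [hL]; exact finrank_rows hN)
  have hmemN : ∀ x : Fin n → ℤ, (∃ u : Fin n → ℤ, Matrix.vecMul u N = x) ↔ x ∈ L := by
    intro x
    rw [hL, Submodule.mem_span_range_iff_exists_fun]
    refine exists_congr fun u => ?_
    have : Matrix.vecMul u N = ∑ i, u i • N i := by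
      funext j
      simp [Matrix.vecMul, dotProduct, Finset.sum_apply]
    rw [this]
  have hrepr : ∀ (x : Fin n → ℤ) (m : Fin n), b'.repr x m =
      ∑ j, x j * b'.repr (Pi.single j 1) m := by
    intro x m
    have h1 : x = ∑ j, x j • (Pi.single j (1 : ℤ) : Fin n → ℤ) := by
      funext i
      simp [Finset.sum_apply, Pi.single_apply]
    conv_lhs => rw [h1]
    rw [map_sum, Finsupp.coe_finsetSum, Finset.sum_apply]
    refine Finset.sum_congr rfl fun j _ => ?_
    rw [map_smul, Finsupp.coe_smul, Pi.smul_apply, smul_eq_mul]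
  have hmem : ∀ x : Fin n → ℤ, x ∈ L ↔ ∀ m, a m ∣ b'.repr x m := by
    intro x
    constructor
    · intro hx m
      have h1 : (⟨x, hx⟩ : L) = ∑ l, ab'.repr ⟨x, hx⟩ l • ab' l := (ab'.sum_repr _).symm
      have h2 : x = ∑ l, ab'.repr ⟨x, hx⟩ l • (a l • b' l) := by
        have h3 := congrArg (Subtype.val) h1
        simp only [AddSubmonoidClass.coe_finsetSum, SetLike.val_smul, h] at h3
        exact h3
      rw [h2, map_sum, Finsupp.coe_finsetSum, Finset.sum_apply]
      refine Finset.dvd_sum fun l _ => ?_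
      rw [map_smul, map_smul, Module.Basis.repr_self, Finsupp.coe_smul, Pi.smul_apply,
        Finsupp.coe_smul, Pi.smul_apply, smul_eq_mul, smul_eq_mul]
      by_cases hlm : l = m
      · subst hlm
        exact Dvd.dvd.mul_left (Dvd.intro _ rfl) _
      · rw [Finsupp.single_eq_of_ne (Ne.symm hlm)]
        simp
    · intro hx
      choose c hc using hx
      have h1 : x = ∑ l, b'.repr x l • b' l := (b'.sum_repr x).symm
      rw [h1]
      refine Submodule.sum_mem _ fun l _ => ?_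
      rw [hc l, mul_comm, mul_smul, ← h l]
      exact Submodule.smul_mem _ _ (ab' l).2
  -- the matrix identity
  have hrow : ∀ i, N i ∈ L := fun i => by
    rw [hL]
    exact Submodule.subset_span ⟨i, rfl⟩
  have hW : ∀ i m, ∃ c : ℤ, b'.repr (N i) m = a m * c := fun i m => (hmem _).1 (hrow i) m
  choose W hW using hW
  have hdec : N = (Matrix.of W) * Matrix.diagonal a * Matrix.of (fun m j => b' m j) := by
    ext i j
    have h1 : N i = ∑ l, b'.repr (N i) l • b' l := (b'.sum_repr (N i)).symm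
    have h2 : N i j = ∑ l, (a l * W i l) * b' l j := by
      conv_lhs => rw [h1]
      rw [Finset.sum_apply]
      refine Finset.sum_congr rfl fun l _ => ?_
      rw [hW, Pi.smul_apply, smul_eq_mul]
    rw [h2, Matrix.mul_apply]
    refine Finset.sum_congr rfl fun l _ => ?_
    rw [Matrix.mul_diagonal, Matrix.of_apply, Matrix.of_apply]
    ring
  have hdet : N.det = (Matrix.of W).det * (∏ m, a m) * (Matrix.of fun m j => b' m j).det := by
    conv_lhs => rw [hdec]
    rw [Matrix.det_mul, Matrix.det_mul, Matrix.det_diagonal]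
  have hW0 : (Matrix.of W).det ≠ 0 := by
    intro h0
    rw [h0, zero_mul, zero_mul] at hdet
    exact hN hdet
  have hB0 : (Matrix.of fun m j => b' m j).det ≠ 0 := by
    intro h0
    rw [h0, mul_zero] at hdet
    exact hN hdet
  have ha0 : ∏ m, a m ≠ 0 := by
    intro h0
    rw [h0, mul_zero, zero_mul] at hdet
    exact hN hdet
  refine ⟨fun m => (a m).natAbs, fun m j => b'.repr (Pi.single j 1) m, fun m => ?_, ?_, ?_⟩
  · exact Int.natAbs_pos.2 (Finset.prod_ne_zero_iff.1 ha0 m (Finset.mem_univ m))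
  · have h1 : ∏ m, (a m).natAbs = (∏ m, a m).natAbs := (map_prod Int.natAbsHom _ _).symm
    rw [h1, hdet, Int.natAbs_mul, Int.natAbs_mul]
    have h2 : 0 < (Matrix.of W).det.natAbs := Int.natAbs_pos.2 hW0
    have h3 : 0 < (Matrix.of fun m j => b' m j).det.natAbs := Int.natAbs_pos.2 hB0
    calc (∏ m, a m).natAbs ≤ (Matrix.of W).det.natAbs * (∏ m, a m).natAbs :=
          Nat.le_mul_of_pos_left _ h2
      _ ≤ _ := Nat.le_mul_of_pos_right _ h3
  · intro x
    rw [hmemN, hmem]
    refine forall_congr' fun m => ?_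
    rw [Int.natAbs_dvd, hrepr]

/-- A choice of congruences. -/
noncomputable def sm (N : Matrix (Fin n) (Fin n) ℤ) : (Fin n → ℕ) × (Fin n → Fin n → ℤ) := by
  classical
  exact if h : N.det ≠ 0 then ((smith h).choose, (smith h).choose_spec.choose) else (0, 0)

lemma sm_spec {N : Matrix (Fin n) (Fin n) ℤ} (hN : N.det ≠ 0) :
    (∀ m, 0 < (sm N).1 m) ∧ ∏ m, (sm N).1 m ≤ N.det.natAbs ∧
      ∀ x : Fin n → ℤ, (∃ u : Fin n → ℤ, Matrix.vecMul u N = x) ↔
        ∀ m, ((sm N).1 m : ℤ) ∣ ∑ j, x j * (sm N).2 m j := by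
  have h := (smith hN).choose_spec.choose_spec
  unfold sm
  rw [dif_pos hN]
  exact h

/-- The new code of a pair. -/
noncomputable def code2 (δ : ℝ) (p : Matrix (Fin n) (Fin n) ℝ × Matrix (Fin n) (Fin n) ℤ) :
    (Fin n → Fin n → ℤ) × (Fin n → ℕ) × (Fin n → Fin n → ℤ) :=
  (fun i j => ⌊(p.1 * rc p.2) i j / δ⌋, (sm p.2).1, fun m j => (sm p.2).2 m j % (sm p.2).1 m)

/-- Equal codes. -/
lemma near_of_code2 (hn : 0 < n) {R η : ℝ} (hR : 1 ≤ R) (hη : 0 < η)
    {B B' : Matrix (Fin n) (Fin n) ℝ} {N N' : Matrix (Fin n) (Fin n) ℤ}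
    (h : IsPair B N) (h' : IsPair B' N')
    (hc : code2 (η / (n * R)) (B, N) = code2 (η / (n * R)) (B', N'))
    (w : Fin n → ℤ) (hw : ‖lat B w‖ < R) : ∃ w' : Fin n → ℤ, ‖lat B w - lat B' w'‖ ≤ η := by
  have hn0 : (0 : ℝ) < n := by exact_mod_cast hn
  have hR0 : 0 < R := by linarith
  set δ : ℝ := η / (n * R) with hδ
  have hδ0 : 0 < δ := by positivity
  simp only [code2, Prod.mk.injEq] at hc
  obtain ⟨hc1, hc2, hc3⟩ := hc
  have hD0 := pair_det_ne' hn h
  have hD0' := pair_det_ne' hn h'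
  obtain ⟨-, -, hs⟩ := sm_spec hD0
  obtain ⟨-, -, hs'⟩ := sm_spec hD0'
  -- the rows of `N'` are combinations of the rows of `N`
  have hrow : ∀ i, ∃ u : Fin n → ℤ, Matrix.vecMul u N = N' i := by
    intro i
    rw [hs]
    intro m
    have h1 : ((sm N').1 m : ℤ) ∣ ∑ j, N' i j * (sm N').2 m j := by
      refine (hs' (N' i)).1 ⟨Pi.single i 1, ?_⟩ m
      rw [Matrix.single_one_vecMul]
      rfl
    rw [← hc2] at h1
    have h2 : ∀ j, ((sm N).1 m : ℤ) ∣ (sm N).2 m j - (sm N').2 m j := by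
      intro j
      have h3 := congrFun (congrFun hc3 m) j
      rw [← hc2] at h3
      exact Int.ModEq.dvd (show (sm N').2 m j % ((sm N).1 m : ℤ) = _ from h3.symm)
    have h4 : ∑ j, N' i j * (sm N).2 m j = ∑ j, N' i j * (sm N').2 m j +
        ∑ j, N' i j * ((sm N).2 m j - (sm N').2 m j) := by
      rw [← Finset.sum_add_distrib]
      refine Finset.sum_congr rfl fun j _ => ?_
      ring
    rw [h4]
    exact dvd_add h1 (Finset.dvd_sum fun j _ => Dvd.dvd.mul_left (h2 j) _)
  choose U hU using hrow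
  have hN' : N' = Matrix.of U * N := by
    ext i j
    have := congrFun (hU i) j
    rw [← this, Matrix.mul_apply]
    rfl
  have hu : IsUnit (rc N).det := by
    rw [det_rc]
    exact isUnit_iff_ne_zero.2 (by exact_mod_cast hD0)
  set q : Fin n → ℝ := (rc N)⁻¹.mulVec (fun j => (w j : ℝ)) with hq
  have hNq : (rc N).mulVec q = fun j => (w j : ℝ) := by
    rw [hq, Matrix.mulVec_mulVec, Matrix.mul_nonsing_inv _ hu, Matrix.one_mulVec]
  set w' : Fin n → ℤ := (Matrix.of U).mulVec w with hw'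
  have hN'q : (rc N').mulVec q = fun j => (w' j : ℝ) := by
    have h1 : rc N' = rc (Matrix.of U) * rc N := by
      rw [hN']
      exact Matrix.map_mul (f := Int.castRingHom ℝ) (M := N) (L := Matrix.of U)
    rw [h1, ← Matrix.mulVec_mulVec, hNq, mulVec_cast]
  have hVq : (B * rc N).mulVec q = B.mulVec fun j => (w j : ℝ) := by
    rw [← Matrix.mulVec_mulVec, hNq]
  have hV'q : (B' * rc N').mulVec q = B'.mulVec fun j => (w' j : ℝ) := by
    rw [← Matrix.mulVec_mulVec, hN'q]
  refine ⟨w', ?_⟩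
  have hqb : ∀ j, |q j| ≤ R / n := by
    refine pair_dom hn h fun i => ?_
    rw [hVq]
    exact (abs_coord_le (lat B w) i).trans hw.le
  have hcoord : ∀ i, |(lat B w - lat B' w') i| ≤ δ * R := by
    intro i
    have h1 : (lat B w - lat B' w') i = ∑ j, ((B * rc N) i j - (B' * rc N') i j) * q j := by
      have h2 : (lat B w - lat B' w') i =
          B.mulVec (fun j => (w j : ℝ)) i - B'.mulVec (fun j => (w' j : ℝ)) i := rfl
      rw [h2, ← hVq, ← hV'q]
      simp only [Matrix.mulVec, dotProduct]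
      rw [← Finset.sum_sub_distrib]
      refine Finset.sum_congr rfl fun j _ => ?_
      ring
    rw [h1]
    refine (Finset.abs_sum_le_sum_abs _ _).trans ?_
    calc ∑ j, |((B * rc N) i j - (B' * rc N') i j) * q j| ≤ ∑ _j : Fin n, δ * (R / n) := by
          refine Finset.sum_le_sum fun j _ => ?_
          rw [abs_mul]
          refine mul_le_mul ?_ (hqb j) (abs_nonneg _) hδ0.le
          have h3 := Int.abs_sub_lt_one_of_floor_eq_floor (congrFun (congrFun hc1 i) j)
          rw [← sub_div, abs_div, abs_of_pos hδ0, div_lt_one hδ0] at h3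
          exact h3.le
      _ = δ * R := by
          rw [Finset.sum_const, Finset.card_univ, Fintype.card_fin, nsmul_eq_mul]
          field_simp
  have hnorm : ‖lat B w - lat B' w'‖ ≤ ∑ i, |(lat B w - lat B' w') i| := by
    rw [EuclideanSpace.norm_eq]
    refine Real.sqrt_le_iff.2 ⟨Finset.sum_nonneg fun i _ => abs_nonneg _, ?_⟩
    simp only [Real.norm_eq_abs]
    exact Finset.sum_sq_le_sq_sum_of_nonneg fun i _ => abs_nonneg _
  refine hnorm.trans ?_
  calc ∑ i, |(lat B w - lat B' w') i| ≤ ∑ _i : Fin n, δ * R := Finset.sum_le_sum fun i _ => hcoord i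
    _ = η := by
        rw [Finset.sum_const, Finset.card_univ, Fintype.card_fin, nsmul_eq_mul, hδ]
        field_simp

/-- The finite set of congruence codes. -/
noncomputable def ccodes (n b : ℕ) : Finset ((Fin n → ℕ) × (Fin n → Fin n → ℤ)) := by
  classical
  exact ((Fintype.piFinset fun _ : Fin n => Finset.Icc 1 b).filter fun a => ∏ m, a m ≤ b).biUnion
    fun a => (Fintype.piFinset fun m : Fin n => Fintype.piFinset fun _ : Fin n =>
      Finset.Ico (0 : ℤ) (a m)).image fun c => (a, c)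

lemma card_ccodes (n b : ℕ) : (ccodes n b).card ≤ b ^ (2 * n) := by
  classical
  unfold ccodes
  refine Finset.card_biUnion_le.trans ?_
  have h1 : ∀ a ∈ (Fintype.piFinset fun _ : Fin n => Finset.Icc 1 b).filter
      (fun a => ∏ m, a m ≤ b),
      ((Fintype.piFinset fun m : Fin n => Fintype.piFinset fun _ : Fin n =>
        Finset.Ico (0 : ℤ) (a m)).image fun c => (a, c)).card ≤ b ^ n := by
    intro a ha
    refine Finset.card_image_le.trans ?_
    simp only [Fintype.card_piFinset, Int.card_Ico, sub_zero, Int.toNat_natCast,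
      Finset.prod_const, Finset.card_univ, Fintype.card_fin]
    rw [Finset.prod_pow]
    exact Nat.pow_le_pow_left (Finset.mem_filter.1 ha).2 n
  refine (Finset.sum_le_sum h1).trans ?_
  rw [Finset.sum_const, smul_eq_mul, two_mul, pow_add]
  refine Nat.mul_le_mul_right _ ((Finset.card_filter_le _ _).trans ?_)
  simp [Fintype.card_piFinset]

/-- The finite set of codes. -/
noncomputable def codes2 (n a b : ℕ) :
    Finset ((Fin n → Fin n → ℤ) × (Fin n → ℕ) × (Fin n → Fin n → ℤ)) :=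
  (Fintype.piFinset fun _ => Fintype.piFinset fun _ => Finset.Icc (-(a : ℤ)) a) ×ˢ ccodes n b

lemma card_codes2 (n a b : ℕ) : (codes2 n a b).card ≤ (2 * a + 1) ^ (n ^ 2) * b ^ (2 * n) := by
  have h1 : ∀ c : ℕ, ((c : ℤ) + 1 - -(c : ℤ)).toNat = 2 * c + 1 := by
    intro c
    omega
  simp only [codes2, Finset.card_product, Fintype.card_piFinset, Finset.prod_const,
    Finset.card_univ, Fintype.card_fin, Int.card_Icc, h1, ← pow_mul, ← sq]
  exact Nat.mul_le_mul_left _ (card_ccodes n b)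

lemma code2_mem (hn : 0 < n) {R η : ℝ} (hR : 1 ≤ R) (hη : 0 < η)
    {B : Matrix (Fin n) (Fin n) ℝ} (hB : Good B) {N : Matrix (Fin n) (Fin n) ℤ} (h : IsPair B N) :
    code2 (η / (n * R)) (B, N) ∈ codes2 n ⌈5 * n ^ 2 * R / η⌉₊ ((5 * n) ^ (3 * n)) := by
  classical
  have hn0 : (0 : ℝ) < n := by exact_mod_cast hn
  have hR0 : 0 < R := by linarith
  have hD0 := pair_det_ne' hn h
  have hD := pair_det_le hn hB h
  have hDn : N.det.natAbs ≤ (5 * n) ^ (3 * n) := by
    have h1 : ((N.det.natAbs : ℕ) : ℤ) ≤ (((5 * n) ^ (3 * n) : ℕ) : ℤ) := by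
      rw [Int.natCast_natAbs]
      exact hD
    exact_mod_cast h1
  obtain ⟨ha, hprod, -⟩ := sm_spec hD0
  simp only [codes2, code2, Finset.mem_product, Fintype.mem_piFinset, Finset.mem_Icc]
  refine ⟨fun i j => ?_, ?_⟩
  · have h1 : |(B * rc N) i j / (η / (n * R))| ≤ ⌈5 * n ^ 2 * R / η⌉₊ := by
      refine le_trans ?_ (Nat.le_ceil _)
      rw [abs_div, abs_of_pos (show 0 < η / (n * R) by positivity), div_le_iff₀ (by positivity)]
      refine (pair_bound hn h i j).trans (le_of_eq ?_)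
      field_simp
    have h2 := abs_le.1 h1
    constructor
    · rw [Int.le_floor]
      push_cast
      exact h2.1
    · have h3 : ((⌊(B * rc N) i j / (η / (n * R))⌋ : ℤ) : ℝ) ≤ (⌈5 * n ^ 2 * R / η⌉₊ : ℕ) :=
        (Int.floor_le _).trans h2.2
      exact_mod_cast h3
  · unfold ccodes
    rw [Finset.mem_biUnion]
    refine ⟨(sm N).1, ?_, ?_⟩
    · rw [Finset.mem_filter, Fintype.mem_piFinset]
      refine ⟨fun m => Finset.mem_Icc.2 ⟨ha m, ?_⟩, hprod.trans hDn⟩
      refine le_trans ?_ (hprod.trans hDn)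
      exact Finset.single_le_prod' (f := (sm N).1) (fun i _ => ha i) (Finset.mem_univ m)
    · rw [Finset.mem_image]
      refine ⟨_, ?_, rfl⟩
      simp only [Fintype.mem_piFinset, Finset.mem_Ico]
      intro m j
      have h4 : (0 : ℤ) < ((sm N).1 m : ℤ) := by exact_mod_cast ha m
      exact ⟨Int.emod_nonneg _ h4.ne', Int.emod_lt_of_pos _ h4⟩

end Codes

/-- H3': few types of good lattices. -/
def RowH3' : Prop := ∀ (n : ℕ), 0 < n → ∀ R η : ℝ, 1 ≤ R → 0 < η → η ≤ 1 →
  ∃ T : Finset (Matrix (Fin n) (Fin n) ℝ), (∀ B ∈ T, Good B) ∧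
    (T.card : ℝ) ≤ (13 * n ^ 2 * R / η) ^ (n ^ 2) * (5 * n : ℝ) ^ (6 * n ^ 2) ∧
    ∀ B : Matrix (Fin n) (Fin n) ℝ, Good B → ∃ B' ∈ T, ∀ w : Fin n → ℤ, ‖lat B w‖ < R →
      ∃ w' : Fin n → ℤ, ‖lat B w - lat B' w'‖ ≤ η

open Codes in
/-- Row H3'. -/
theorem rowH3' : RowH3' := by
  classical
  intro n hn R η hR hη hη1
  have hn0 : (0 : ℝ) < n := by exact_mod_cast hn
  have hn1 : (1 : ℝ) ≤ n := by exact_mod_cast hn
  set δ : ℝ := η / (n * R) with hδ
  set a : ℕ := ⌈5 * n ^ 2 * R / η⌉₊ with ha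
  set b : ℕ := (5 * n) ^ (3 * n) with hb
  set P : (Fin n → Fin n → ℤ) × (Fin n → ℕ) × (Fin n → Fin n → ℤ) → Prop := fun c =>
    ∃ p : Matrix (Fin n) (Fin n) ℝ × Matrix (Fin n) (Fin n) ℤ,
      Good p.1 ∧ IsPair p.1 p.2 ∧ code2 δ p = c with hP
  set rep : (Fin n → Fin n → ℤ) × (Fin n → ℕ) × (Fin n → Fin n → ℤ) →
      Matrix (Fin n) (Fin n) ℝ := fun c => if h : P c then h.choose.1 else 1 with hrep
  refine ⟨((codes2 n a b).filter P).image rep, ?_, ?_, ?_⟩
  · intro B hB
    obtain ⟨c, hc, rfl⟩ := Finset.mem_image.1 hB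
    have h1 := (Finset.mem_filter.1 hc).2
    simp only [hrep, dif_pos h1]
    exact h1.choose_spec.1
  · have h1 : ((((codes2 n a b).filter P).image rep).card : ℝ) ≤
        ((2 * a + 1) ^ (n ^ 2) * b ^ (2 * n) : ℕ) := by
      exact_mod_cast Finset.card_image_le.trans ((Finset.card_filter_le _ _).trans
        (card_codes2 n a b))
    refine h1.trans ?_
    push_cast
    have h2 : (1 : ℝ) ≤ n ^ 2 * R / η := by
      rw [le_div_iff₀ hη, one_mul]
      have : (1 : ℝ) ≤ n ^ 2 * R := by nlinarith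
      linarith
    have h3 : (2 * (a : ℝ) + 1) ≤ 13 * n ^ 2 * R / η := by
      have h4 : (a : ℝ) < 5 * n ^ 2 * R / η + 1 := Nat.ceil_lt_add_one (by positivity)
      have h5 : 5 * n ^ 2 * R / η = 5 * (n ^ 2 * R / η) := by ring
      have h6 : 13 * n ^ 2 * R / η = 13 * (n ^ 2 * R / η) := by ring
      rw [h5] at h4
      rw [h6]
      linarith
    have hbr : (b : ℝ) ^ (2 * n) = (5 * n : ℝ) ^ (6 * n ^ 2) := by
      rw [hb]
      push_cast
      rw [← pow_mul]
      congr 1
      ring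
    rw [hbr]
    gcongr
  · intro B hB
    obtain ⟨N, hN⟩ := exists_pair hB
    have hPc : P (code2 δ (B, N)) := ⟨(B, N), hB, hN, rfl⟩
    refine ⟨rep (code2 δ (B, N)), Finset.mem_image.2 ⟨_, Finset.mem_filter.2
      ⟨code2_mem hn hR hη hB hN, hPc⟩, rfl⟩, fun w hw => ?_⟩
    have h1 := hPc.choose_spec
    have h2 : rep (code2 δ (B, N)) = hPc.choose.1 := by
      simp only [hrep, dif_pos hPc]
    rw [h2]
    exact near_of_code2 hn hR hη hN h1.2.1 (by rw [h1.2.2]) w hw

end Pool.Agent.Lib.LPH
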