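import Pool.Agent.Lib.LPH.Numbers
import Pool.Agent.Lib.LPH.Smith

/-!
Project LPH: the final inequality with the better count of types.
-/

set_option autoImplicit false

namespace Pool.Agent.Lib.LPH

open MeasureTheory Filter Topology
open Pool.Agent.Lib.MP_ef2672_gt_Tauber Pool.Agent.Lib.MP_ef2672_gt_Over Pool.Agent.Lib.EF_h73

/-- H7', the final inequality. -/
def RowH7' : Prop := ∃ C : ℝ, ∀ (k n : ℕ), 0 < k → 0 < n →
  lp k n ≤ gamma n * Real.exp (C * (n * Real.log (n + k) / k))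

lemma types_le' {n k : ℕ} (hn : 0 < n) (hk : 0 < k) :
    1 + 2 * ((13 * (n : ℝ) ^ 2 * (8 * n * (n + k)) / (1 / (2 * (n + k)))) ^ (n ^ 2) *
      (5 * n : ℝ) ^ (6 * n ^ 2)) ≤ (n + k : ℝ) ^ (39 * n ^ 2) := by
  have hn1 : (1 : ℝ) ≤ n := by exact_mod_cast hn
  have hk1 : (1 : ℝ) ≤ k := by exact_mod_cast hk
  set N : ℝ := (n : ℝ) + k with hN
  have hN2 : 2 ≤ N := by linarith
  have hN1 : 1 ≤ N := by linarith
  have hN0 : 0 < N := by linarith
  have hnN : (n : ℝ) ≤ N := by linarith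
  have h1 : 13 * (n : ℝ) ^ 2 * (8 * n * N) / (1 / (2 * N)) ≤ N ^ 13 := by
    have h2 : 13 * (n : ℝ) ^ 2 * (8 * n * N) / (1 / (2 * N)) = 208 * (n ^ 3 * N ^ 2) := by
      field_simp
      ring
    rw [h2]
    have h3 : (208 : ℝ) ≤ N ^ 8 := by
      calc (208 : ℝ) ≤ 2 ^ 8 := by norm_num
        _ ≤ N ^ 8 := pow_le_pow_left₀ (by norm_num) hN2 8
    calc 208 * ((n : ℝ) ^ 3 * N ^ 2) ≤ N ^ 8 * (N ^ 3 * N ^ 2) := by gcongr
      _ = N ^ 13 := by ring
  have h4 : 5 * (n : ℝ) ≤ N ^ 4 := by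
    have h5 : (5 : ℝ) ≤ N ^ 3 := by
      calc (5 : ℝ) ≤ 2 ^ 3 := by norm_num
        _ ≤ N ^ 3 := pow_le_pow_left₀ (by norm_num) hN2 3
    calc 5 * (n : ℝ) ≤ N ^ 3 * N := by gcongr
      _ = N ^ 4 := by ring
  have h6 : 1 ≤ (N ^ 13) ^ (n ^ 2) * (N ^ 4) ^ (6 * n ^ 2) :=
    one_le_mul_of_one_le_of_one_le (one_le_pow₀ (one_le_pow₀ hN1))
      (one_le_pow₀ (one_le_pow₀ hN1))
  have h7 : (3 : ℝ) ≤ N ^ 2 := by
    calc (3 : ℝ) ≤ 2 ^ 2 := by norm_num
      _ ≤ N ^ 2 := pow_le_pow_left₀ (by norm_num) hN2 2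
  have h0 : 0 ≤ 13 * (n : ℝ) ^ 2 * (8 * n * N) / (1 / (2 * N)) := by positivity
  calc 1 + 2 * ((13 * (n : ℝ) ^ 2 * (8 * n * N) / (1 / (2 * N))) ^ (n ^ 2) *
        (5 * n : ℝ) ^ (6 * n ^ 2))
      ≤ 1 + 2 * ((N ^ 13) ^ (n ^ 2) * (N ^ 4) ^ (6 * n ^ 2)) := by gcongr
    _ ≤ 3 * ((N ^ 13) ^ (n ^ 2) * (N ^ 4) ^ (6 * n ^ 2)) := by linarith
    _ ≤ N ^ 2 * ((N ^ 13) ^ (n ^ 2) * (N ^ 4) ^ (6 * n ^ 2)) := by gcongr
    _ = N ^ (2 + (13 * n ^ 2 + 4 * (6 * n ^ 2))) := by
        rw [← pow_mul, ← pow_mul, ← pow_add, ← pow_add]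
    _ ≤ N ^ (39 * n ^ 2) := by
        refine pow_le_pow_right₀ hN1 ?_
        have h10 : 1 ≤ n ^ 2 := Nat.one_le_pow _ _ hn
        omega

/-- Row H7'. -/
theorem rowH7'_of (h3 : RowH3') (h6 : RowH6) : RowH7' := by
  refine ⟨88, fun k n hk hn => ?_⟩
  have hn1 : (1 : ℝ) ≤ n := by exact_mod_cast hn
  have hk1 : (1 : ℝ) ≤ k := by exact_mod_cast hk
  have hn0 : (0 : ℝ) < n := by linarith
  have hk0 : (0 : ℝ) < k := by linarith
  set N : ℝ := (n : ℝ) + k with hN
  have hN2 : 2 ≤ N := by linarith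
  have hN0 : 0 < N := by linarith
  set η : ℝ := 1 / (2 * N) with hη
  have hη0 : 0 < η := by positivity
  have hη4 : η ≤ 1 / 4 := by
    rw [hη]
    exact one_div_le_one_div_of_le (by norm_num) (by linarith)
  set R : ℝ := 8 * n * N with hR
  have hRn : 2 * (n : ℝ) ≤ R := by
    have h1 : (n : ℝ) * 1 ≤ n * N := mul_le_mul_of_nonneg_left (by linarith) hn0.le
    have h2 : R = 8 * (n * N) := by
      rw [hR]
      ring
    rw [h2]
    linarith
  have hR1 : 1 ≤ R := by linarith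
  have hR0 : 0 < R := by linarith
  obtain ⟨T, hT, hcard, hcode⟩ := h3 n hn R η hR1 hη0 (by linarith)
  obtain ⟨F, hF, hF0⟩ := h6 k n hk hn R η hRn hη0 (by linarith) T hT hcode
  refine (lp_le hF).trans ?_
  have hint := hF.2.2.2.2.1
  have hpd := hF.2.2.2.1
  have hFz := hpd.zero_nonneg
  have hγ1 := one_le_gamma hn
  have hγ0 : 0 < gamma n := by linarith
  set t : ℝ := (2 : ℝ) / (n * k : ℕ) with ht
  have ht0 : 0 < t := by
    have : 0 < n * k := Nat.mul_pos hn hk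
    positivity
  set M : ℝ := N ^ (39 * n ^ 2) with hM
  set a : ℝ := 1 + (2 * η + 4) / R with ha
  have ha0 : 0 < a := by positivity
  have h1η : 0 < (1 - η)⁻¹ := inv_pos.2 (by linarith)
  set Θ : ℝ := (1 - η)⁻¹ ^ n * a ^ (2 * n) * gamma n ^ ((n : ℝ) / 2) with hΘ
  have hΘ0 : 0 < Θ := by positivity
  have hMT : 1 + 2 * (T.card : ℝ) ≤ M := by
    refine le_trans ?_ (types_le' hn hk)
    have := hcard
    rw [hη, hR] at this
    linarith
  have h1 : F 0 / ∫ X, F X ≤ M * Θ ^ k := by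
    rw [div_le_iff₀ hint]
    refine hF0.trans (mul_le_mul_of_nonneg_right ?_ hint.le)
    exact mul_le_mul_of_nonneg_right hMT (by positivity)
  have h2 : val k n F 1 ≤ (M * Θ ^ k) ^ t := by
    unfold val
    rw [one_pow, one_mul]
    exact Real.rpow_le_rpow (div_nonneg hFz hint.le) h1 ht0.le
  refine h2.trans ?_
  have hM0 : 0 < M := by positivity
  rw [Real.mul_rpow hM0.le (by positivity)]
  have hΘk : (Θ ^ k) ^ t = (1 - η)⁻¹ ^ 2 * a ^ 4 * gamma n := by
    have e1 : (Θ ^ k) ^ t = Θ ^ ((2 : ℝ) / n) := by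
      rw [← Real.rpow_natCast, ← Real.rpow_mul hΘ0.le]
      congr 1
      rw [ht]
      push_cast
      field_simp
    rw [e1, hΘ, Real.mul_rpow (by positivity) (by positivity),
      Real.mul_rpow (by positivity) (by positivity)]
    have e2 := pow_root h1η.le hn 1
    have e3 := pow_root ha0.le hn 2
    rw [one_mul] at e2
    rw [e2, e3, ← Real.rpow_mul hγ0.le]
    have e4 : (n : ℝ) / 2 * (2 / n) = 1 := by field_simp
    rw [e4, Real.rpow_one]
  rw [hΘk]
  set Q : ℝ := (n : ℝ) * Real.log N / k with hQ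
  have hlog2 : (1 : ℝ) / 2 ≤ Real.log N := by
    have h5 := Real.log_two_gt_d9
    have h6 := Real.log_le_log (by norm_num) hN2
    linarith
  have hQk : 1 / (k : ℝ) ≤ 2 * Q := by
    rw [hQ, ← mul_div_assoc]
    refine div_le_div_of_nonneg_right ?_ hk0.le
    have h7 : 1 * Real.log N ≤ n * Real.log N := mul_le_mul_of_nonneg_right hn1 (by linarith)
    linarith
  have hMt : M ^ t = Real.exp (78 * Q) := by
    rw [hM, ← Real.rpow_natCast, ← Real.rpow_mul hN0.le, Real.rpow_def_of_pos hN0]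
    congr 1
    rw [ht, hQ]
    push_cast
    field_simp
    ring
  have hk2 : 1 / N ≤ 1 / (k : ℝ) := one_div_le_one_div_of_le hk0 (by linarith)
  have hb1 : (1 - η)⁻¹ ^ 2 ≤ Real.exp (4 * Q) := by
    have h8 := inv_one_sub_le hη0.le (by linarith : η ≤ 1 / 2)
    calc (1 - η)⁻¹ ^ 2 ≤ Real.exp (2 * η) ^ 2 := pow_le_pow_left₀ h1η.le h8 2
      _ = Real.exp (4 * η) := by
          rw [← Real.exp_nat_mul]
          congr 1
          push_cast
          ring
      _ ≤ Real.exp (4 * Q) := by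
          refine Real.exp_le_exp.2 ?_
          have h9 : 4 * η = 2 * (1 / N) := by
            rw [hη]
            field_simp
            ring
          rw [h9]
          linarith
  have hb2 : a ^ 4 ≤ Real.exp (6 * Q) := by
    have h8 : a ≤ Real.exp ((2 * η + 4) / R) := by
      have := Real.add_one_le_exp ((2 * η + 4) / R)
      rw [ha]
      linarith
    calc a ^ 4 ≤ Real.exp ((2 * η + 4) / R) ^ 4 := pow_le_pow_left₀ ha0.le h8 4
      _ = Real.exp (4 * ((2 * η + 4) / R)) := by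
          rw [← Real.exp_nat_mul]
          congr 1
      _ ≤ Real.exp (6 * Q) := by
          refine Real.exp_le_exp.2 ?_
          have h9 : (2 * η + 4) / R ≤ 5 / (8 * N) := by
            refine div_le_div₀ (by norm_num) (by linarith) (by positivity) ?_
            have h12 : 1 * N ≤ n * N := mul_le_mul_of_nonneg_right hn1 hN0.le
            have h13 : R = 8 * (n * N) := by
              rw [hR]
              ring
            rw [h13]
            linarith
          have h10 : 4 * (5 / (8 * N)) = 5 / 2 * (1 / N) := by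
            field_simp
            ring
          have h11 : 0 < 1 / (k : ℝ) := by positivity
          linarith
  rw [hMt]
  calc Real.exp (78 * Q) * ((1 - η)⁻¹ ^ 2 * a ^ 4 * gamma n)
      ≤ Real.exp (78 * Q) * (Real.exp (4 * Q) * Real.exp (6 * Q) * gamma n) := by gcongr
    _ = gamma n * Real.exp (88 * Q) := by
        rw [show 88 * Q = 78 * Q + (4 * Q + 6 * Q) by ring, Real.exp_add, Real.exp_add]
        ring

end Pool.Agent.Lib.LPH
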