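import Pool.Agent.Lib.LPH.Final
import Pool.Agent.Lib.LPH.Numbers2

/-!
Project LPH: limits.
-/

set_option autoImplicit false

namespace Pool.Agent.Lib.LPH

open MeasureTheory Filter Topology
open Pool.Agent.Lib.MP_ef2672_gt_Tauber Pool.Agent.Lib.MP_ef2672_gt_Over Pool.Agent.Lib.EF_h73

theorem rowH7' : RowH7' := rowH7'_of rowH3' rowH6

/-- Both inequalities. -/
theorem lp_bounds : ∃ C : ℝ, 0 ≤ C ∧ ∀ (k n : ℕ), 0 < k → 0 < n →
    gamma n ≤ lp k n ∧ lp k n ≤ gamma n * Real.exp (C * (n * Real.log (n + k) / k)) := by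
  obtain ⟨C, hC⟩ := rowH7'
  refine ⟨|C|, abs_nonneg C, fun k n hk hn => ⟨gamma_le_lp hk hn, (hC k n hk hn).trans ?_⟩⟩
  have hn1 : (1 : ℝ) ≤ n := by exact_mod_cast hn
  have hk1 : (1 : ℝ) ≤ k := by exact_mod_cast hk
  have h1 : 0 ≤ Real.log ((n : ℝ) + k) := Real.log_nonneg (by linarith)
  have h2 : 0 ≤ (n : ℝ) * Real.log (n + k) / k := by positivity
  have h3 := gamma_nonneg n
  have h4 := le_abs_self C
  gcongr

/-- The hierarchy converges to Hermite's constant. -/
theorem tendsto_lp {n : ℕ} (hn : 0 < n) : Tendsto (fun k : ℕ => lp k n) atTop (𝓝 (gamma n)) := by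
  obtain ⟨C, hC0, hC⟩ := lp_bounds
  have hn1 : (1 : ℝ) ≤ n := by exact_mod_cast hn
  have hq : Tendsto (fun k : ℕ => (n : ℝ) * Real.log (n + k) / k) atTop (𝓝 0) := by
    have h1 : Tendsto (fun x : ℝ => Real.log x / x) atTop (𝓝 0) := by
      simpa using Real.isLittleO_log_id_atTop.tendsto_div_nhds_zero
    have h2 : Tendsto (fun k : ℕ => (n : ℝ) + k) atTop atTop :=
      tendsto_atTop_add_const_left _ _ tendsto_natCast_atTop_atTop
    have h3 := (h1.comp h2).const_mul ((n : ℝ) * (n + 1))
    rw [mul_zero] at h3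
    refine tendsto_of_tendsto_of_tendsto_of_le_of_le' tendsto_const_nhds h3 ?_ ?_
    · filter_upwards [eventually_gt_atTop 0] with k hk
      have hk1 : (1 : ℝ) ≤ k := by exact_mod_cast hk
      have h4 : 0 ≤ Real.log ((n : ℝ) + k) := Real.log_nonneg (by linarith)
      positivity
    · filter_upwards [eventually_gt_atTop 0] with k hk
      have hk1 : (1 : ℝ) ≤ k := by exact_mod_cast hk
      have hk0 : (0 : ℝ) < k := by linarith
      have h4 : 0 ≤ Real.log ((n : ℝ) + k) := Real.log_nonneg (by linarith)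
      have h5 : ((n : ℝ) + k) ≤ (n + 1) * k := by nlinarith
      simp only [Function.comp_apply]
      rw [div_le_iff₀ hk0]
      have h6 : (1 : ℝ) ≤ (n + 1) * k / (n + k) := by
        rw [le_div_iff₀ (by linarith)]
        linarith
      calc (n : ℝ) * Real.log (n + k) = n * Real.log (n + k) * 1 := by ring
        _ ≤ n * Real.log (n + k) * ((n + 1) * k / (n + k)) :=
            mul_le_mul_of_nonneg_left h6 (by positivity)
        _ = n * (n + 1) * (Real.log (n + k) / (n + k)) * k := by ring
  have hup : Tendsto (fun k : ℕ => gamma n * Real.exp (C * (n * Real.log (n + k) / k))) atTop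
      (𝓝 (gamma n)) := by
    have h1 := (Real.continuous_exp.tendsto 0).comp (by simpa using hq.const_mul C)
    have h2 := h1.const_mul (gamma n)
    simpa using h2
  refine tendsto_of_tendsto_of_tendsto_of_le_of_le' tendsto_const_nhds hup ?_ ?_
  · filter_upwards [eventually_gt_atTop 0] with k hk using (hC k n hk hn).1
  · filter_upwards [eventually_gt_atTop 0] with k hk using (hC k n hk hn).2

/-- Level `n²` is asymptotically exact. -/
theorem tendsto_ratio : Tendsto (fun n : ℕ => lp (n ^ 2) n / gamma n) atTop (𝓝 1) := by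
  obtain ⟨C, hC0, hC⟩ := lp_bounds
  have hlog : Tendsto (fun n : ℕ => C * (3 * (Real.log n / n))) atTop (𝓝 0) := by
    have h1 : Tendsto (fun x : ℝ => Real.log x / x) atTop (𝓝 0) := by
      simpa using Real.isLittleO_log_id_atTop.tendsto_div_nhds_zero
    have h2 := (h1.comp tendsto_natCast_atTop_atTop).const_mul 3
    have h3 := h2.const_mul C
    simpa using h3
  have hup : Tendsto (fun n : ℕ => Real.exp (C * (3 * (Real.log n / n)))) atTop (𝓝 1) := by
    have h1 := (Real.continuous_exp.tendsto 0).comp hlog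
    rw [Real.exp_zero] at h1
    exact h1
  refine tendsto_of_tendsto_of_tendsto_of_le_of_le' tendsto_const_nhds hup ?_ ?_
  · filter_upwards [eventually_gt_atTop 0] with n hn
    have hg := one_le_gamma hn
    rw [le_div_iff₀ (by linarith), one_mul]
    exact (hC (n ^ 2) n (by positivity) hn).1
  · filter_upwards [eventually_ge_atTop 2] with n hn
    have hn0 : 0 < n := by omega
    have hg := one_le_gamma hn0
    have hn2 : (2 : ℝ) ≤ n := by exact_mod_cast hn
    rw [div_le_iff₀ (by linarith), mul_comm]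
    refine (hC (n ^ 2) n (by positivity) hn0).2.trans ?_
    refine mul_le_mul_of_nonneg_left ?_ (by linarith)
    refine Real.exp_le_exp.2 (mul_le_mul_of_nonneg_left ?_ hC0)
    have h1 : Real.log ((n : ℝ) + (n ^ 2 : ℕ)) ≤ 3 * Real.log n := by
      rw [show (3 : ℝ) * Real.log n = Real.log ((n : ℝ) ^ 3) by
        rw [Real.log_pow]
        norm_num]
      refine Real.log_le_log (by positivity) ?_
      push_cast
      nlinarith [sq_nonneg ((n : ℝ) - 1), mul_le_mul_of_nonneg_left hn2 (sq_nonneg (n : ℝ))]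
    have h2 : (n : ℝ) * Real.log (n + (n ^ 2 : ℕ)) / (n ^ 2 : ℕ) =
        Real.log (n + (n ^ 2 : ℕ)) / n := by
      push_cast
      field_simp
    rw [h2, ← mul_div_assoc]
    exact div_le_div_of_nonneg_right h1 (by positivity)

/-- The question in terms of the level `n²`. -/
theorem limit_iff (l : ℝ) : Tendsto (fun n : ℕ => gamma n / n) atTop (𝓝 l) ↔
    Tendsto (fun n : ℕ => lp (n ^ 2) n / n) atTop (𝓝 l) := by
  have h1 := tendsto_ratio
  have h2 : Tendsto (fun n : ℕ => (lp (n ^ 2) n / gamma n)⁻¹) atTop (𝓝 1) := by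
    simpa using h1.inv₀ one_ne_zero
  constructor
  · intro h
    have h3 := h.mul h1
    rw [mul_one] at h3
    refine h3.congr' ?_
    filter_upwards [eventually_gt_atTop 0] with n hn
    have hg := one_le_gamma hn
    have hg0 : gamma n ≠ 0 := by linarith
    field_simp
  · intro h
    have h3 := h.mul h2
    rw [mul_one] at h3
    refine h3.congr' ?_
    filter_upwards [eventually_gt_atTop 0] with n hn
    have hg := one_le_gamma hn
    have hg0 : gamma n ≠ 0 := by linarith
    have hl : lp (n ^ 2) n ≠ 0 := by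
      have := gamma_le_lp (k := n ^ 2) (by positivity) hn
      linarith
    field_simp

end Pool.Agent.Lib.LPH
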